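import Pool.Agent.CpPN.LC

/-!
# A closed copy of `X^ω × ω^ω` in `C_p(C_p(X))`
-/

set_option autoImplicit false
open TopologicalSpace Set

namespace Pool.Agent.CpPN

universe u

variable {X : Type u} [TopologicalSpace X]

/-- evaluation at a point -/
def hat (x : X) : Cp (Cp X) := ⟨fun f => f.1 x, continuous_eval x⟩

lemma continuous_to_Cp {A : Type*} [TopologicalSpace A] {Y : Type u} [TopologicalSpace Y]
    {φ : A → Cp Y} (h : ∀ y, Continuous fun a => (φ a).1 y) : Continuous φ := by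
  refine Continuous.subtype_mk (f := fun a => (φ a).1) ?_ (fun a => (φ a).2)
  exact continuous_pi h

lemma continuous_hat : Continuous (hat : X → Cp (Cp X)) :=
  continuous_to_Cp fun f => f.2

lemma isClosed_range_hat [T35Space X] : IsClosed (range (hat : X → Cp (Cp X))) := by
  classical
  refine isClosed_of_closure_subset fun Λ hΛ => ?_
  -- closed conditions
  have hcl : ∀ P : Set (Cp (Cp X)), IsClosed P → (∀ x, hat x ∈ P) → Λ ∈ P := by
    intro P hP hx
    exact closure_minimal (range_subset_iff.2 hx) hP hΛ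
  have h0 : Λ.1 ⟨fun _ => 0, continuous_const⟩ = 0 :=
    hcl {Λ | Λ.1 ⟨fun _ => 0, continuous_const⟩ = 0}
      (isClosed_eq (continuous_eval _) continuous_const) fun x => rfl
  have hsm : ∀ (s : ℝ) (f : Cp X), Λ.1 ⟨fun x => s * f.1 x, continuous_const.mul f.2⟩ = s * Λ.1 f :=
    fun s f => hcl {Λ | Λ.1 ⟨fun x => s * f.1 x, continuous_const.mul f.2⟩ = s * Λ.1 f}
      (isClosed_eq (continuous_eval _) (continuous_const.mul (continuous_eval _))) fun x => rfl
  have hpr : ∀ (F : Finset X) (f : X → Cp X) (c : X → ℝ),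
      Λ.1 ⟨fun x => ∏ y ∈ F, ((f y).1 x - c y), continuous_finsetProd _ fun y _ =>
        (f y).2.sub continuous_const⟩ = ∏ y ∈ F, (Λ.1 (f y) - c y) :=
    fun F f c => hcl {Λ | Λ.1 ⟨fun x => ∏ y ∈ F, ((f y).1 x - c y), continuous_finsetProd _ fun y _ =>
        (f y).2.sub continuous_const⟩ = ∏ y ∈ F, (Λ.1 (f y) - c y)}
      (isClosed_eq (continuous_eval _) (continuous_finsetProd _ fun y _ =>
        (continuous_eval _).sub continuous_const)) fun x => rfl
  obtain ⟨F, ε, hε, hF⟩ := exists_fin_eps_one (G := {f : Cp X | |Λ.1 f| < 1})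
    (isOpen_lt Λ.2.abs continuous_const) (f := ⟨fun _ => 0, continuous_const⟩) (by
      show |Λ.1 ⟨fun _ => 0, continuous_const⟩| < 1
      rw [h0]; norm_num)
  have hF' : ∀ g : Cp X, (∀ q ∈ F, g.1 q = 0) → Λ.1 g = 0 := by
    intro g hg
    by_contra hne
    have h1 := hF ⟨fun x => (Λ.1 g)⁻¹ * g.1 x, continuous_const.mul g.2⟩ (by
      intro q hq
      simp [hg q hq, hε])
    have h2 : |Λ.1 ⟨fun x => (Λ.1 g)⁻¹ * g.1 x, continuous_const.mul g.2⟩| < 1 := h1
    rw [hsm, inv_mul_cancel₀ hne] at h2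
    norm_num at h2
  have hex : ∃ y ∈ F, ∀ f : Cp X, Λ.1 f = f.1 y := by
    by_contra hcon
    push Not at hcon
    have hcon' : ∀ y : X, ∃ f : Cp X, y ∈ F → Λ.1 f ≠ f.1 y := by
      intro y
      by_cases hy : y ∈ F
      · obtain ⟨f, hf⟩ := hcon y hy
        exact ⟨f, fun _ => hf⟩
      · exact ⟨⟨fun _ => 0, continuous_const⟩, fun h => absurd h hy⟩
    choose f hf using hcon'
    have h1 := hpr F f (fun y => (f y).1 y)
    rw [hF' _ (by
      intro q hq
      exact Finset.prod_eq_zero hq (sub_self _))] at h1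
    obtain ⟨y, hy, hy'⟩ := Finset.prod_eq_zero_iff.1 h1.symm
    exact hf y hy (sub_eq_zero.1 hy')
  obtain ⟨y, -, hy⟩ := hex
  exact ⟨y, Subtype.ext (funext fun f => (hy f).symm)⟩

lemma isClosedEmbedding_hat [T35Space X] :
    Topology.IsClosedEmbedding (hat : X → Cp (Cp X)) := by
  have hinj : Function.Injective (hat : X → Cp (Cp X)) := by
    intro x y hxy
    by_contra hne
    obtain ⟨φ, hφ, hφ1, hφ0, -⟩ := exists_bump x (isClosed_singleton (x := y)).isOpen_compl
      (by simpa using hne)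
    have h1 : (hat x).1 ⟨φ, hφ⟩ = (hat y).1 ⟨φ, hφ⟩ := by rw [hxy]
    have h2 : φ x = φ y := h1
    rw [hφ1, hφ0 y (by simp)] at h2
    norm_num at h2
  refine ⟨⟨Topology.isInducing_iff_nhds.2 fun x => ?_, hinj⟩, isClosed_range_hat⟩
  refine le_antisymm (continuous_hat.tendsto x).le_comap ?_
  intro U hU
  obtain ⟨V, hVU, hV, hxV⟩ := mem_nhds_iff.1 hU
  obtain ⟨φ, hφ, hφ1, hφ0, -⟩ := exists_bump x hV hxV
  have h1 : IsOpen {Φ : Cp (Cp X) | 1 / 2 < Φ.1 ⟨φ, hφ⟩} :=
    isOpen_lt continuous_const (continuous_eval _)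
  refine Filter.mem_comap.2 ⟨_, h1.mem_nhds ?_, fun y hy => ?_⟩
  · show 1 / 2 < φ x
    rw [hφ1]; norm_num
  · by_contra hyU
    have h3 : 1 / 2 < φ y := hy
    rw [hφ0 y (fun h => hyU (hVU h))] at h3
    norm_num at h3

/-- the tent function -/
noncomputable def tent (s : ℝ) : ℝ := max 0 (1 - |s|)

lemma continuous_tent : Continuous tent := by
  unfold tent; fun_prop

lemma tent_zero : tent 0 = 1 := by simp [tent]

lemma tent_eq_zero {s : ℝ} (h : 1 ≤ |s|) : tent s = 0 := by
  unfold tent; exact max_eq_left (by linarith)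

lemma lt_one_of_tent {s : ℝ} (h : tent s ≠ 0) : |s| < 1 := by
  by_contra h'
  exact h (tent_eq_zero (not_lt.1 h'))

lemma finite_near (s : ℝ) (r : ℝ) : {i : ℕ | |s - i| < r}.Finite := by
  refine (Set.finite_lt_nat (⌈|s| + r⌉₊)).subset ?_
  intro i hi
  have h1 : |s - i| < r := hi
  refine Nat.lt_ceil.2 ?_
  have h2 : (i : ℝ) ≤ |s| + |s - i| := by
    have := abs_sub_abs_le_abs_sub (i : ℝ) s
    rw [abs_sub_comm (i : ℝ) s, Nat.abs_cast] at this
    linarith
  linarith

lemma locallyFinite_tent : LocallyFinite fun i : ℕ => {s : ℝ | |s - i| < 1} := by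
  intro s
  refine ⟨Metric.ball s 1, Metric.ball_mem_nhds s one_pos, (finite_near s 2).subset ?_⟩
  rintro i ⟨s', hs', hs⟩
  have h1 : |s' - i| < 1 := hs'
  have h2 : |s' - s| < 1 := by rw [← Real.dist_eq]; exact hs
  show |s - i| < 2
  have h3 : |s - i| ≤ |s' - i| + |s' - s| := by
    have := abs_sub_le s s' i
    rw [abs_sub_comm s s'] at this
    linarith
  linarith

/-- the point part -/
noncomputable def ptA (x0 : X) (x : ℕ → X) (i : ℕ) (f : Cp X) : ℝ :=
  tent (-f.1 x0 - 1 - i) * (f.1 (x i) + (i + 1))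

/-- the number part -/
noncomputable def ptB (x0 : X) (t : ℕ → ℕ) (i : ℕ) (f : Cp X) : ℝ :=
  tent (f.1 x0 - i) * (t i : ℝ)

lemma continuous_phi (x0 : X) (x : ℕ → X) (t : ℕ → ℕ) :
    Continuous fun f : Cp X => (∑ᶠ i, ptA x0 x i f) + ∑ᶠ i, ptB x0 t i f := by
  refine Continuous.add ?_ ?_
  · refine continuous_finsum (fun i => ?_) ?_
    · unfold ptA
      exact (continuous_tent.comp ((((continuous_eval x0).neg).sub continuous_const).sub
        continuous_const)).mul ((continuous_eval _).add continuous_const)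
    · have h1 := locallyFinite_tent.preimage_continuous (g := fun f : Cp X => -f.1 x0 - 1)
        (((continuous_eval x0).neg).sub continuous_const)
      refine h1.subset fun i f hf => ?_
      have h2 : ptA x0 x i f ≠ 0 := hf
      exact lt_one_of_tent (left_ne_zero_of_mul h2)
  · refine continuous_finsum (fun i => ?_) ?_
    · unfold ptB
      exact (continuous_tent.comp ((continuous_eval x0).sub continuous_const)).mul continuous_const
    · have h1 := locallyFinite_tent.preimage_continuous (g := fun f : Cp X => f.1 x0)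
        (continuous_eval x0)
      refine h1.subset fun i f hf => ?_
      have h2 : ptB x0 t i f ≠ 0 := hf
      exact lt_one_of_tent (left_ne_zero_of_mul h2)

/-- the embedding of `X^ω × ω^ω` -/
noncomputable def emb (x0 : X) (p : (ℕ → X) × (ℕ → ℕ)) : Cp (Cp X) :=
  ⟨fun f => (∑ᶠ i, ptA x0 p.1 i f) + ∑ᶠ i, ptB x0 p.2 i f, continuous_phi x0 p.1 p.2⟩

lemma continuous_emb (x0 : X) : Continuous (emb x0) := by
  refine continuous_to_Cp fun f => ?_
  refine Continuous.add ?_ ?_
  · refine continuous_finsum (fun i => ?_) ?_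
    · unfold ptA
      exact continuous_const.mul ((f.2.comp ((continuous_apply i).comp continuous_fst)).add
        continuous_const)
    · intro p
      refine ⟨univ, Filter.univ_mem, (finite_near (-f.1 x0 - 1) 1).subset ?_⟩
      rintro i ⟨q, hq, -⟩
      have h2 : ptA x0 q.1 i f ≠ 0 := hq
      exact lt_one_of_tent (left_ne_zero_of_mul h2)
  · refine continuous_finsum (fun i => ?_) ?_
    · unfold ptB
      refine continuous_const.mul ?_
      exact (continuous_of_discreteTopology (f := fun n : ℕ => (n : ℝ))).comp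
        ((continuous_apply i).comp continuous_snd)
    · intro p
      refine ⟨univ, Filter.univ_mem, (finite_near (f.1 x0) 1).subset ?_⟩
      rintro i ⟨q, hq, -⟩
      have h2 : ptB x0 q.2 i f ≠ 0 := hq
      exact lt_one_of_tent (left_ne_zero_of_mul h2)

lemma emb_neg (x0 : X) (p : (ℕ → X) × (ℕ → ℕ)) (j : ℕ) (g : Cp X) (hg : g.1 x0 = -(j + 1)) :
    (emb x0 p).1 g = g.1 (p.1 j) + (j + 1) := by
  have h1 : (∑ᶠ i, ptA x0 p.1 i g) = g.1 (p.1 j) + (j + 1) := by
    rw [finsum_eq_single _ j]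
    · unfold ptA
      rw [hg]
      have : -(-((j : ℝ) + 1)) - 1 - j = 0 := by ring
      rw [this, tent_zero, one_mul]
    · intro i hij
      unfold ptA
      rw [hg, tent_eq_zero, zero_mul]
      have h2 : -(-((j : ℝ) + 1)) - 1 - i = ((j : ℤ) - (i : ℤ) : ℤ) := by push_cast; ring
      rw [h2, ← Int.cast_abs]
      have h3 : (1 : ℤ) ≤ |(j : ℤ) - (i : ℤ)| := Int.one_le_abs (by omega)
      exact_mod_cast h3
  have h2 : (∑ᶠ i, ptB x0 p.2 i g) = 0 := by
    refine finsum_eq_zero_of_forall_eq_zero fun i => ?_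
    unfold ptB
    rw [hg, tent_eq_zero, zero_mul]
    rw [abs_of_nonpos]
    · have := Nat.cast_nonneg (α := ℝ) i
      have := Nat.cast_nonneg (α := ℝ) j
      linarith
    · have := Nat.cast_nonneg (α := ℝ) i
      have := Nat.cast_nonneg (α := ℝ) j
      linarith
  show (∑ᶠ i, ptA x0 p.1 i g) + (∑ᶠ i, ptB x0 p.2 i g) = _
  rw [h1, h2, add_zero]

lemma emb_pos (x0 : X) (p : (ℕ → X) × (ℕ → ℕ)) (j : ℕ) :
    (emb x0 p).1 ⟨fun _ => (j : ℝ), continuous_const⟩ = p.2 j := by
  have h1 : (∑ᶠ i, ptA x0 p.1 i ⟨fun _ => (j : ℝ), continuous_const⟩) = 0 := by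
    refine finsum_eq_zero_of_forall_eq_zero fun i => ?_
    unfold ptA
    rw [tent_eq_zero, zero_mul]
    have h3 := Nat.cast_nonneg (α := ℝ) i
    have h4 := Nat.cast_nonneg (α := ℝ) j
    show 1 ≤ |-(j : ℝ) - 1 - i|
    rw [abs_of_nonpos (by linarith)]
    linarith
  have h2 : (∑ᶠ i, ptB x0 p.2 i ⟨fun _ => (j : ℝ), continuous_const⟩) = p.2 j := by
    rw [finsum_eq_single _ j]
    · unfold ptB
      show tent ((j : ℝ) - j) * _ = _
      rw [sub_self, tent_zero, one_mul]
    · intro i hij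
      unfold ptB
      rw [tent_eq_zero, zero_mul]
      show 1 ≤ |(j : ℝ) - i|
      have h2 : (j : ℝ) - i = ((j : ℤ) - (i : ℤ) : ℤ) := by push_cast; ring
      rw [h2, ← Int.cast_abs]
      have h3 : (1 : ℤ) ≤ |(j : ℤ) - (i : ℤ)| := Int.one_le_abs (by omega)
      exact_mod_cast h3
  show (∑ᶠ i, ptA x0 p.1 i ⟨fun _ => (j : ℝ), continuous_const⟩) +
    (∑ᶠ i, ptB x0 p.2 i ⟨fun _ => (j : ℝ), continuous_const⟩) = _
  rw [h1, h2, zero_add]

/-- recentering -/
def rec0 (x0 : X) (j : ℕ) (f : Cp X) : Cp X :=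
  ⟨fun x => f.1 x - f.1 x0 - (j + 1), (f.2.sub continuous_const).sub continuous_const⟩

lemma continuous_rec0 (x0 : X) (j : ℕ) : Continuous (rec0 x0 j) :=
  continuous_to_Cp fun x => ((continuous_eval x).sub (continuous_eval x0)).sub continuous_const

/-- the left inverse -/
def ret (x0 : X) (Φ : Cp (Cp X)) : (ℕ → Cp (Cp X)) × (ℕ → ℝ) :=
  (fun j => ⟨fun f => Φ.1 (rec0 x0 j f) + f.1 x0,
    (Φ.2.comp (continuous_rec0 x0 j)).add (continuous_eval x0)⟩,
   fun j => Φ.1 ⟨fun _ => (j : ℝ), continuous_const⟩)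

lemma continuous_ret (x0 : X) : Continuous (ret x0) := by
  refine Continuous.prodMk (continuous_pi fun j => continuous_to_Cp fun f => ?_)
    (continuous_pi fun j => continuous_eval _)
  exact (continuous_eval _).add continuous_const

lemma ret_emb (x0 : X) (p : (ℕ → X) × (ℕ → ℕ)) :
    ret x0 (emb x0 p) = (fun j => hat (p.1 j), fun j => (p.2 j : ℝ)) := by
  refine Prod.ext (funext fun j => Subtype.ext (funext fun f => ?_)) (funext fun j => emb_pos x0 p j)
  show (emb x0 p).1 (rec0 x0 j f) + f.1 x0 = f.1 (p.1 j)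
  rw [emb_neg x0 p j]
  · show f.1 (p.1 j) - f.1 x0 - (j + 1) + (j + 1) + f.1 x0 = f.1 (p.1 j)
    ring
  · show f.1 x0 - f.1 x0 - (j + 1) = -(j + 1)
    ring

theorem isClosedEmbedding_emb [T35Space X] (x0 : X) : Topology.IsClosedEmbedding (emb x0) := by
  have h1 : IsProperMap (fun p : (ℕ → X) × (ℕ → ℕ) =>
      ((fun j => hat (p.1 j), fun j => (p.2 j : ℝ)) : (ℕ → Cp (Cp X)) × (ℕ → ℝ))) := by
    have h2 : IsProperMap (fun (x : ℕ → X) j => (hat (x j) : Cp (Cp X))) :=
      IsProperMap.pi_map fun _ => isClosedEmbedding_hat.isProperMap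
    have h3 : IsProperMap (fun (t : ℕ → ℕ) j => ((t j : ℕ) : ℝ)) :=
      IsProperMap.pi_map fun _ => Nat.isClosedEmbedding_coe_real.isProperMap
    exact h2.prodMap h3
  have h2 : ret x0 ∘ emb x0 = fun p : (ℕ → X) × (ℕ → ℕ) =>
      ((fun j => hat (p.1 j), fun j => (p.2 j : ℝ)) : (ℕ → Cp (Cp X)) × (ℕ → ℝ)) :=
    funext fun p => ret_emb x0 p
  have h3 : IsProperMap (emb x0) := isProperMap_of_comp_of_t2 (continuous_emb x0)
    (continuous_ret x0) (by rw [h2]; exact h1)
  refine Topology.IsClosedEmbedding.of_continuous_injective_isClosedMap (continuous_emb x0) ?_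
    h3.isClosedMap
  intro p q hpq
  have h4 : ret x0 (emb x0 p) = ret x0 (emb x0 q) := by rw [hpq]
  rw [ret_emb, ret_emb] at h4
  obtain ⟨h5, h6⟩ := Prod.mk.inj h4
  refine Prod.ext (funext fun j => isClosedEmbedding_hat.injective (congrFun h5 j))
    (funext fun j => ?_)
  exact_mod_cast congrFun h6 j

/-- The theorem on closed subspaces of `X^ω`. -/
theorem countable_LC [T35Space X] [NormalSpace (Cp (Cp X))]
    (hCS : CS (Cp (Cp (Cp X)))) (T : Set (ℕ → X)) (hT : IsClosed T) : (LC T).Countable := by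
  rcases isEmpty_or_nonempty X with hX | ⟨⟨x0⟩⟩
  · have : IsEmpty (ℕ → X) := ⟨fun f => hX.false (f 0)⟩
    have h : (univ : Set T).Countable := by
      have : IsEmpty T := ⟨fun z => this.false z.1⟩
      exact Set.to_countable _
    exact h.mono (subset_univ _)
  · have he : Topology.IsClosedEmbedding (fun p : T × (ℕ → ℕ) => emb x0 (p.1.1, p.2)) := by
      have h1 : Topology.IsClosedEmbedding (fun p : T × (ℕ → ℕ) => ((p.1 : ℕ → X), p.2)) :=
        hT.isClosedEmbedding_subtypeVal.prodMap Topology.IsClosedEmbedding.id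
      exact (isClosedEmbedding_emb x0).comp h1
    exact core _ he hCS

end Pool.Agent.CpPN
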