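import Pool.Agent.CpPN.Factor

/-!
# Consequences of perfect normality of `C_p(C_p(X))` for `C_p(X)` and `X`
-/

set_option autoImplicit false
open TopologicalSpace Set

namespace Pool.Agent.CpPN

universe u

/-- all closed subspaces are separable -/
def CS (T : Type u) [TopologicalSpace T] : Prop :=
  ∀ L : Set T, IsClosed L → ∃ D : Set T, D ⊆ L ∧ D.Countable ∧ L ⊆ closure D

variable {X : Type u} [TopologicalSpace X]

/-- translation by a constant -/
def sh (c : ℝ) (f : Cp X) : Cp X := ⟨fun x => f.1 x + c, f.2.add continuous_const⟩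

lemma continuous_sh (c : ℝ) : Continuous (sh c : Cp X → Cp X) := by
  refine Continuous.subtype_mk ?_ _
  exact continuous_pi fun x => (continuous_eval x).add continuous_const

/-- If `C_p(C_p(X))` is perfectly normal then all closed subspaces of finite powers of `C_p(X)`
are separable. -/
theorem cs_powers [T35Space X] [PerfectlyNormalSpace (Cp (Cp X))] (n : ℕ) :
    CS (Fin n → Cp X) := by
  classical
  intro L hL
  rcases isEmpty_or_nonempty X with hX | ⟨⟨x₀⟩⟩
  · -- everything is a point
    have : Subsingleton (Cp X) := ⟨fun f g => Subtype.ext (funext fun x => (hX.false x).elim)⟩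
    have : Subsingleton (Fin n → Cp X) := inferInstance
    exact ⟨L, Subset.rfl, (Set.subsingleton_of_subsingleton (s := L)).countable, subset_closure⟩
  · let C : Fin n → Set (Cp X) := fun i => {e | e.1 x₀ ∈ Icc (2 * (i : ℝ)) (2 * (i : ℝ) + 1)}
    have hC : ∀ i, IsClosed (C i) := fun i => isClosed_Icc.preimage (continuous_eval x₀)
    have hd : ∀ i j, i ≠ j → Disjoint (C i) (C j) := by
      intro i j hij
      rw [Set.disjoint_left]
      intro e he he'
      have h1 : (2 * (i : ℝ)) ≤ e.1 x₀ ∧ e.1 x₀ ≤ 2 * (i : ℝ) + 1 := he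
      have h2 : (2 * (j : ℝ)) ≤ e.1 x₀ ∧ e.1 x₀ ≤ 2 * (j : ℝ) + 1 := he'
      rcases lt_or_gt_of_ne (fun h => hij (Fin.ext h) : (i : ℕ) ≠ j) with h | h
      · have : (i : ℝ) + 1 ≤ j := by exact_mod_cast h
        linarith [h1.2, h2.1]
      · have : (j : ℝ) + 1 ≤ i := by exact_mod_cast h
        linarith [h1.1, h2.2]
    -- for every integer vector
    let T : (Fin n → ℤ) → (Fin n → Cp X) → (Fin n → Cp X) := fun a z i =>
      sh ((a i : ℝ) - 2 * (i : ℝ)) (z i)
    have hT : ∀ a, Continuous (T a) := fun a =>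
      continuous_pi fun i => (continuous_sh _).comp (continuous_apply i)
    let L' : (Fin n → ℤ) → Set (Fin n → Cp X) := fun a => {z | (∀ i, z i ∈ C i) ∧ T a z ∈ L}
    have hL' : ∀ a, IsClosed (L' a) := by
      intro a
      have : L' a = (⋂ i, {z | z i ∈ C i}) ∩ T a ⁻¹' L := by ext z; simp [L']
      rw [this]
      refine IsClosed.inter ?_ (hL.preimage (hT a))
      exact isClosed_iInter fun i => (hC i).preimage (continuous_apply i)
    have h1 : ∀ a, ∃ D : Set (Fin n → Cp X), D ⊆ L' a ∧ D.Countable ∧ L' a ⊆ closure D :=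
      fun a => separable_of_disjoint C hC hd (L' a) (hL' a) fun y hy => hy.1
    choose D hDL hDc hD using h1
    refine ⟨⋃ a, T a '' D a, ?_, countable_iUnion fun a => (hDc a).image _, ?_⟩
    · refine iUnion_subset fun a => ?_
      rintro _ ⟨z, hz, rfl⟩
      exact (hDL a hz).2
    · intro y hy
      let a : Fin n → ℤ := fun i => ⌊(y i).1 x₀⌋
      let z : Fin n → Cp X := fun i => sh (2 * (i : ℝ) - (a i : ℝ)) (y i)
      have hTz : T a z = y := by
        funext i
        refine Subtype.ext (funext fun x => ?_)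
        show ((y i).1 x + (2 * (i : ℝ) - (a i : ℝ))) + ((a i : ℝ) - 2 * (i : ℝ)) = (y i).1 x
        ring
      have hz : z ∈ L' a := by
        refine ⟨fun i => ?_, by rw [hTz]; exact hy⟩
        show (y i).1 x₀ + (2 * (i : ℝ) - (a i : ℝ)) ∈ Icc (2 * (i : ℝ)) (2 * (i : ℝ) + 1)
        have h1 := Int.floor_le ((y i).1 x₀)
        have h2 := (Int.lt_floor_add_one ((y i).1 x₀)).le
        constructor
        · have : (a i : ℝ) ≤ (y i).1 x₀ := h1
          linarith
        · have : (y i).1 x₀ ≤ (a i : ℝ) + 1 := h2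
          linarith
      have h2 : T a z ∈ closure (T a '' D a) :=
        image_closure_subset_closure_image (hT a) ⟨z, hD a hz, rfl⟩
      rw [hTz] at h2
      exact closure_mono (subset_iUnion (fun a => T a '' D a) a) h2

/-- If all closed subspaces of `C_p(X)^n` are separable, then `X^n` has countable spread. -/
theorem spread [T35Space X] {n : ℕ} (hCS : CS (Fin n → Cp X)) (D : Set (Fin n → X))
    (hD : DiscreteTopology D) : D.Countable := by
  classical
  -- neighbourhood boxes
  have h1 : ∀ x : Fin n → X, ∃ U : Fin n → Set X, (∀ i, IsOpen (U i)) ∧ (∀ i, x i ∈ U i) ∧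
      (x ∈ D → ∀ z ∈ D, (∀ i, z i ∈ U i) → z = x) := by
    intro x
    by_cases hx : x ∈ D
    · have h2 : IsOpen ({⟨x, hx⟩} : Set D) := isOpen_discrete _
      rw [isOpen_induced_iff] at h2
      obtain ⟨O, hO, hOx⟩ := h2
      have hxO : x ∈ O := by
        have : (⟨x, hx⟩ : D) ∈ ((↑) ⁻¹' O : Set D) := by rw [hOx]; rfl
        exact this
      obtain ⟨J, v, hv, hJ⟩ := isOpen_pi_iff.1 hO x hxO
      refine ⟨fun i => if i ∈ J then v i else univ, ?_, ?_, ?_⟩
      · intro i
        by_cases h : i ∈ J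
        · simp only [h, if_true]; exact (hv i h).1
        · simp only [h, if_false]; exact isOpen_univ
      · intro i
        by_cases h : i ∈ J
        · simp only [h, if_true]; exact (hv i h).2
        · simp only [h, if_false]; exact mem_univ _
      · intro _ z hzD hz
        have hzO : z ∈ O := hJ fun i hi => by simpa [Finset.mem_coe.1 hi] using hz i
        have : (⟨z, hzD⟩ : D) ∈ ((↑) ⁻¹' O : Set D) := hzO
        rw [hOx] at this
        exact congrArg Subtype.val (mem_singleton_iff.1 this)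
    · exact ⟨fun _ => univ, fun _ => isOpen_univ, fun _ => mem_univ _, fun h => absurd h hx⟩
  choose U hUo hUx hUD using h1
  have h2 : ∀ (x : Fin n → X) (i : Fin n), ∃ φ : X → ℝ, Continuous φ ∧ φ (x i) = 1 ∧
      (∀ z, z ∉ U x i → φ z = 0) ∧ ∀ z, 0 ≤ φ z ∧ φ z ≤ 1 :=
    fun x i => exists_bump (x i) (hUo x i) (hUx x i)
  choose φ hφ hφ1 hφ0 hφr using h2
  let m : (Fin n → X) → (Fin n → Cp X) → ℝ := fun x f => ∏ i, (f i).1 (x i)
  have hm : ∀ x, Continuous (m x) := fun x =>
    continuous_finsetProd _ fun i _ => (continuous_eval (x i)).comp (continuous_apply i)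
  let L : Set (Fin n → Cp X) := {f | (∀ x ∈ D, ∀ z ∈ D, x ≠ z → m x f * m z f = 0) ∧
    ∀ x ∈ D, m x f = 0 ∨ m x f = 1}
  have hL : IsClosed L := by
    have : L = (⋂ x ∈ D, ⋂ z ∈ D, ⋂ (_ : x ≠ z), {f | m x f * m z f = 0}) ∩
        ⋂ x ∈ D, ({f | m x f = 0} ∪ {f | m x f = 1}) := by
      ext f; simp [L]
    rw [this]
    refine IsClosed.inter ?_ ?_
    · refine isClosed_biInter fun x _ => isClosed_biInter fun z _ => isClosed_iInter fun _ => ?_
      exact isClosed_eq ((hm x).mul (hm z)) continuous_const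
    · exact isClosed_biInter fun x _ => (isClosed_eq (hm x) continuous_const).union
        (isClosed_eq (hm x) continuous_const)
  obtain ⟨E, hEL, hEc, hE⟩ := hCS L hL
  -- the elements `F x`
  let F : (Fin n → X) → (Fin n → Cp X) := fun x i => ⟨φ x i, hφ x i⟩
  have hF1 : ∀ x, m x (F x) = 1 := by
    intro x
    show ∏ i, φ x i (x i) = 1
    exact Finset.prod_eq_one fun i _ => hφ1 x i
  have hF0 : ∀ x ∈ D, ∀ z ∈ D, x ≠ z → m z (F x) = 0 := by
    intro x hx z hz hne
    have : ∃ i, z i ∉ U x i := by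
      by_contra h
      push Not at h
      exact hne (hUD x hx z hz h).symm
    obtain ⟨i, hi⟩ := this
    show ∏ i, φ x i (z i) = 0
    exact Finset.prod_eq_zero (Finset.mem_univ i) (hφ0 x i _ hi)
  have hFL : ∀ x ∈ D, F x ∈ L := by
    intro x hx
    refine ⟨fun y hy z hz hyz => ?_, fun z hz => ?_⟩
    · by_cases h : x = y
      · subst h
        rw [hF0 x hx z hz hyz, mul_zero]
      · rw [hF0 x hx y hy h, zero_mul]
    · by_cases h : x = z
      · subst h; exact Or.inr (hF1 x)
      · exact Or.inl (hF0 x hx z hz h)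
  -- an injection of `D` into the countable set `E`
  have h3 : ∀ x ∈ D, ∃ e ∈ E, m x e = 1 := by
    intro x hx
    have h4 := hE (hFL x hx)
    rw [mem_closure_iff] at h4
    obtain ⟨e, he, heE⟩ := h4 {f | 1 / 2 < m x f} (isOpen_lt continuous_const (hm x))
      (by show (1 : ℝ) / 2 < m x (F x); rw [hF1 x]; norm_num)
    refine ⟨e, heE, ?_⟩
    rcases (hEL heE).2 x hx with h | h
    · have he' : (1 : ℝ) / 2 < m x e := he
      rw [h] at he'; norm_num at he'
    · exact h
  have hne : Nonempty (Fin n → Cp X) := ⟨fun _ => ⟨fun _ => 0, continuous_const⟩⟩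
  choose! e heE he1 using h3
  have hinj : InjOn e D := by
    intro x hx z hz hxz
    by_contra hxz'
    have h5 := (hEL (heE x hx)).1 x hx z hz hxz'
    rw [he1 x hx, one_mul, hxz, he1 z hz] at h5
    norm_num at h5
  exact MapsTo.countable_of_injOn heE hinj hEc

end Pool.Agent.CpPN
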