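import Pool.Agent.CpPN.SSpace

/-!
# The main theorem on `C_p C_p C_p (X)`
-/

set_option autoImplicit false
open TopologicalSpace Set

namespace Pool.Agent.CpPN

universe u

/-- If `C_p(X)` is hereditarily separable then all finite powers of `X` are hereditarily
Lindelof. -/
theorem hl_powers {X : Type u} [TopologicalSpace X] [T35Space X]
    (h : ∀ S : Set (Cp X), SeparableSpace S) (n : ℕ) (S : Set (Fin n → X)) : IsLindelof S := by
  classical
  -- a countable dense sequence of functions
  obtain ⟨G, -, hGc, hG⟩ := (separable_iff (univ : Set (Cp X))).1 (h univ)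
  have hGne : G.Nonempty := by
    by_contra hne
    rw [not_nonempty_iff_eq_empty] at hne
    have := hG (mem_univ (⟨fun _ => 0, continuous_const⟩ : Cp X))
    rw [hne, closure_empty] at this
    exact this
  obtain ⟨g, hg⟩ := hGc.exists_eq_range hGne
  have hk : ∀ a b : X, ∃ k : ℕ, a ≠ b → (g k).1 a < 1 / 2 ∧ 1 / 2 < (g k).1 b := by
    intro a b
    by_cases hab : a = b
    · exact ⟨0, fun h => absurd hab h⟩
    · obtain ⟨f, hf⟩ := exists_interp {a, b} (fun z => if z = a then (0 : ℝ) else 1)
      have hfa : f.1 a = 0 := by rw [hf a (by simp)]; simp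
      have hfb : f.1 b = 1 := by rw [hf b (by simp)]; simp [Ne.symm hab]
      have h1 := hG (mem_univ f)
      rw [mem_closure_iff] at h1
      obtain ⟨e, he, heG⟩ := h1 _ (isOpen_fin_eps_one {a, b} (1 / 4) f.1) (by
        intro q _; simp)
      rw [hg] at heG
      obtain ⟨k, rfl⟩ := heG
      refine ⟨k, fun _ => ?_⟩
      have h2 := he a (by simp)
      have h3 := he b (by simp)
      rw [hfa, abs_lt] at h2
      rw [hfb, abs_lt] at h3
      constructor <;> linarith [h2.2, h3.1]
  choose k hk using hk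
  refine isLindelof_of_countable_subcover fun {ι} U hU hSU => ?_
  rcases isEmpty_or_nonempty ι with hι | hι
  · refine ⟨∅, countable_empty, fun x hx => ?_⟩
    obtain ⟨i, _⟩ := mem_iUnion.1 (hSU hx)
    exact (hι.false i).elim
  -- choose boxes
  have h1 : ∀ x : Fin n → X, ∃ i : ι, ∃ u : Fin n → Set X, (∀ l, IsOpen (u l)) ∧
      (∀ l, x l ∈ u l) ∧ (x ∈ S → ∀ z : Fin n → X, (∀ l, z l ∈ u l) → z ∈ U i) := by
    intro x
    by_cases hx : x ∈ S
    · obtain ⟨i, hi⟩ := mem_iUnion.1 (hSU hx)
      obtain ⟨J, v, hv, hJ⟩ := isOpen_pi_iff.1 (hU i) x hi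
      refine ⟨i, fun l => if l ∈ J then v l else univ, ?_, ?_, ?_⟩
      · intro l
        by_cases h : l ∈ J
        · simp only [h, if_true]; exact (hv l h).1
        · simp only [h, if_false]; exact isOpen_univ
      · intro l
        by_cases h : l ∈ J
        · simp only [h, if_true]; exact (hv l h).2
        · simp only [h, if_false]; exact mem_univ _
      · intro _ z hz
        exact hJ fun l hl => by simpa [Finset.mem_coe.1 hl] using hz l
    · exact ⟨hι.some, fun _ => univ, fun _ => isOpen_univ, fun _ => mem_univ _,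
        fun h => absurd h hx⟩
  choose i u huo hux hui using h1
  let N : (Fin n → X) → X → Set X := fun x a =>
    (⋂ j, {z | x j = a → z ∈ u x j}) ∩
      ⋂ l, ⋂ j, {z | x j = a → x l ≠ x j → 1 / 2 < (g (k (x l) (x j))).1 z}
  have hNo : ∀ x a, IsOpen (N x a) := by
    intro x a
    refine (isOpen_iInter_of_finite fun j => ?_).inter
      (isOpen_iInter_of_finite fun l => isOpen_iInter_of_finite fun j => ?_)
    · by_cases h : x j = a
      · simp only [h, true_imp_iff]; exact huo x j
      · simp only [h, false_imp_iff]; exact isOpen_univ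
    · by_cases h : x j = a
      · by_cases h' : x l ≠ x j
        · simp only [h, true_imp_iff]
          rw [← h]
          simp only [h', not_false_eq_true, ne_eq, true_imp_iff]
          exact isOpen_lt continuous_const (g (k (x l) (x j))).2
        · simp only [h', false_imp_iff, imp_true_iff]; exact isOpen_univ
      · simp only [h, false_imp_iff]; exact isOpen_univ
  have hNx : ∀ x l, x l ∈ N x (x l) := by
    intro x l
    refine ⟨?_, ?_⟩
    · simp only [mem_iInter]
      intro j (hj : x j = x l)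
      show x l ∈ u x j
      rw [← hj]; exact hux x j
    · simp only [mem_iInter]
      intro l' j (hj : x j = x l) hne
      show 1 / 2 < (g (k (x l') (x j))).1 (x l)
      rw [← hj]; exact (hk _ _ hne).2
  have h2 : ∀ (x : Fin n → X) (l : Fin n), ∃ φ : X → ℝ, Continuous φ ∧ φ (x l) = 1 ∧
      (∀ z, z ∉ N x (x l) → φ z = 0) ∧ ∀ z, 0 ≤ φ z ∧ φ z ≤ 1 :=
    fun x l => exists_bump (x l) (hNo x _) (hNx x l)
  choose φ hφ hφ1 hφ0 hφr using h2
  let F : (Fin n → X) → Cp X := fun x => ⟨fun z => ∑ l, φ x l z,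
    continuous_finsetSum _ fun l _ => hφ x l⟩
  have hF1 : ∀ x l, 1 ≤ (F x).1 (x l) := by
    intro x l
    have := Finset.single_le_sum (f := fun j => φ x j (x l)) (fun j _ => (hφr x j _).1)
      (Finset.mem_univ l)
    simp only [hφ1] at this
    exact this
  have hF0 : ∀ x z, 0 < (F x).1 z → ∃ j, z ∈ N x (x j) := by
    intro x z hz
    by_contra h
    push Not at h
    have : (F x).1 z = 0 := by
      show ∑ l, φ x l z = 0
      exact Finset.sum_eq_zero fun j _ => hφ0 x j z (h j)
    rw [this] at hz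
    exact lt_irrefl _ hz
  -- types
  let τ : (Fin n → X) → (Fin n → Fin n → Option ℕ) := fun x l j =>
    if x l = x j then none else some (k (x l) (x j))
  have h3 : ∀ t : Fin n → Fin n → Option ℕ, ∃ S₀ : Set (Fin n → X), S₀ ⊆ S ∧ S₀.Countable ∧
      ∀ y ∈ S, τ y = t → ∃ x ∈ S₀, y ∈ U (i x) := by
    intro t
    let St : Set (Fin n → X) := {x | x ∈ S ∧ τ x = t}
    obtain ⟨D, hDS, hDc, hD⟩ := (separable_iff (F '' St)).1 (h _)
    have h4 : ∀ e ∈ D, ∃ x ∈ St, F x = e := fun e he => hDS he
    have hne : Nonempty (Fin n → X) ∨ IsEmpty (Fin n → X) := (isEmpty_or_nonempty _).symm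
    rcases hne with hne | hne
    swap
    · exact ⟨∅, empty_subset _, countable_empty, fun y => (hne.false y).elim⟩
    choose! x hxS hxF using h4
    refine ⟨x '' D, ?_, hDc.image _, ?_⟩
    · rintro _ ⟨e, he, rfl⟩; exact (hxS e he).1
    · intro y hy hyt
      have h5 := hD ⟨y, ⟨hy, hyt⟩, rfl⟩
      rw [mem_closure_iff] at h5
      obtain ⟨e, he, heD⟩ := h5 (⋂ l, {f : Cp X | 1 / 2 < f.1 (y l)})
        (isOpen_iInter_of_finite fun l => isOpen_lt continuous_const (continuous_eval _))
        (by
          simp only [mem_iInter]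
          intro l
          show 1 / 2 < (F y).1 (y l)
          linarith [hF1 y l])
      refine ⟨x e, mem_image_of_mem _ heD, hui (x e) (hxS e heD).1 y fun l => ?_⟩
      have h6 : 1 / 2 < e.1 (y l) := (mem_iInter.1 he) l
      rw [← hxF e heD] at h6
      obtain ⟨j, hj⟩ := hF0 (x e) (y l) (by linarith)
      have hτ : τ (x e) l j = τ y l j := by rw [hyt, (hxS e heD).2]
      by_cases hlj : x e l = x e j
      · have h7 := (mem_iInter.1 hj.1) l
        exact h7 hlj
      · exfalso
        have h8 : τ (x e) l j = some (k (x e l) (x e j)) := by simp only [τ, hlj, if_false]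
        have h9 : y l ≠ y j := by
          intro h10
          have : τ y l j = none := by simp only [τ, h10, if_true]
          rw [← hτ, h8] at this
          exact absurd this (by simp)
        have h11 : τ y l j = some (k (y l) (y j)) := by simp only [τ, h9, if_false]
        have h12 : k (x e l) (x e j) = k (y l) (y j) := by
          rw [h8, h11] at hτ
          exact Option.some_injective _ hτ
        have h13 : 1 / 2 < (g (k (x e l) (x e j))).1 (y l) :=
          (mem_iInter.1 ((mem_iInter.1 hj.2) l)) j rfl hlj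
        rw [h12] at h13
        linarith [(hk _ _ h9).1]
  choose S₀ hS₀ hS₀c hS₀' using h3
  refine ⟨⋃ t, i '' S₀ t, countable_iUnion fun t => (hS₀c t).image _, fun y hy => ?_⟩
  obtain ⟨x, hx, hxy⟩ := hS₀' (τ y) y hy rfl
  exact mem_iUnion₂.2 ⟨i x, mem_iUnion.2 ⟨τ y, mem_image_of_mem _ hx⟩, hxy⟩

/-- If `C_p(Y)` is hereditarily Lindelof then `Y` is hereditarily separable. -/
theorem hs_of_hl_cp {Y : Type u} [TopologicalSpace Y] [T35Space Y]
    (h : ∀ S : Set (Cp Y), IsLindelof S) (S : Set Y) : SeparableSpace S := by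
  classical
  let O : S → Set (Cp Y) := fun s => {f | 1 / 2 < f.1 s}
  have hO : ∀ s, IsOpen (O s) := fun s => isOpen_lt continuous_const (continuous_eval _)
  obtain ⟨r, hrc, hr⟩ := (h (⋃ s, O s)).elim_countable_subcover O hO Subset.rfl
  rw [separable_iff]
  refine ⟨(↑) '' r, ?_, hrc.image _, fun s hs => ?_⟩
  · rintro _ ⟨s, _, rfl⟩; exact s.2
  · by_contra hcl
    obtain ⟨φ, hφ, hφ1, hφ0, -⟩ := exists_bump s (U := (closure (Subtype.val '' r))ᶜ)
      isClosed_closure.isOpen_compl (mem_compl hcl)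
    have h1 : (⟨φ, hφ⟩ : Cp Y) ∈ ⋃ s, O s := mem_iUnion.2 ⟨⟨s, hs⟩, by
      show 1 / 2 < φ s
      rw [hφ1]; norm_num⟩
    obtain ⟨s', hs', h2⟩ := mem_iUnion₂.1 (hr h1)
    have h3 : 1 / 2 < φ s' := h2
    rw [hφ0 s' (fun h => h (subset_closure ⟨s', hs', rfl⟩))] at h3
    norm_num at h3

/-- `C_p(X)` embeds into `C_pC_pC_p(X)`. -/
theorem hs_cp_of_hs_cpcpcp {X : Type u} [TopologicalSpace X]
    (h : ∀ S : Set (Cp (Cp (Cp X))), SeparableSpace S) (S : Set (Cp X)) : SeparableSpace S := by
  classical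
  let em : Cp X → Cp (Cp (Cp X)) := fun f => ⟨fun Φ => Φ.1 f, continuous_eval f⟩
  have hem : Continuous em := by
    refine Continuous.subtype_mk ?_ _
    exact continuous_pi fun Φ => Φ.2
  let r : Cp (Cp (Cp X)) → (X → ℝ) := fun w x => w.1 ⟨fun f => f.1 x, continuous_eval x⟩
  have hr : Continuous r := continuous_pi fun x => continuous_eval _
  have hind : Topology.IsInducing em := by
    refine Topology.IsInducing.of_comp hem hr ?_
    exact Topology.IsInducing.subtypeVal
  obtain ⟨D, hDS, hDc, hD⟩ := (separable_iff (em '' S)).1 (h _)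
  have h1 : ∀ e ∈ D, ∃ f ∈ S, em f = e := fun e he => hDS he
  have hne : Nonempty (Cp X) := ⟨⟨fun _ => 0, continuous_const⟩⟩
  choose! f hfS hfe using h1
  rw [separable_iff]
  refine ⟨f '' D, ?_, hDc.image _, fun s hs => ?_⟩
  · rintro _ ⟨e, he, rfl⟩; exact hfS e he
  · rw [hind.closure_eq_preimage_closure_image]
    refine closure_mono ?_ (hD ⟨s, hs, rfl⟩)
    intro e he
    exact ⟨f e, mem_image_of_mem _ he, hfe e he⟩

/-- hereditary separability of the powers of `C_p(X)`. -/
theorem hs_powers {X : Type u} [TopologicalSpace X] [T35Space X]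
    [PerfectlyNormalSpace (Cp (Cp X))] (h : ∀ k : ℕ, LindelofSpace (Fin k → X)) (n : ℕ)
    (S : Set (Fin n → Cp X)) : SeparableSpace S := by
  obtain ⟨D, hDS, hDc, hD⟩ := cs_powers (X := X) n (closure S) isClosed_closure
  have h1 : ∀ f ∈ D, ∃ A' : Set (Fin n → Cp X), A' ⊆ S ∧ A'.Countable ∧ f ∈ closure A' :=
    fun f hf => tight h n S f (hDS hf)
  choose! A' hA' hA'c hfA' using h1
  rw [separable_iff]
  refine ⟨⋃ f ∈ D, A' f, iUnion₂_subset hA', hDc.biUnion hA'c, fun s hs => ?_⟩
  have h2 := hD (subset_closure hs)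
  have h3 : D ⊆ closure (⋃ f ∈ D, A' f) := fun f hf =>
    closure_mono (subset_biUnion_of_mem (u := A') hf) (hfA' f hf)
  exact closure_minimal h3 isClosed_closure h2

/-- a perfectly normal Lindelof space is hereditarily Lindelof -/
theorem hl_of_lindelof {T : Type u} [TopologicalSpace T] [PerfectlyNormalSpace T]
    [LindelofSpace T] (S : Set T) : IsLindelof S := by
  have h1 : HereditarilyLindelofSpace T := by
    refine HereditarilyLindelofSpace.of_forall_isOpen fun O hO => ?_
    obtain ⟨C, hCo, hCc, hC⟩ := PerfectlyNormalSpace.closed_gdelta hO.isClosed_compl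
    have h2 : O = ⋃ t ∈ C, tᶜ := by
      rw [← compl_compl O, hC, sInter_eq_biInter, compl_iInter₂]
    rw [h2]
    exact hCc.isLindelof_biUnion fun t ht => (hCo t ht).isClosed_compl.isLindelof
  exact h1.isLindelof S

/-- The main theorem. -/
theorem main (X : Type u) [TopologicalSpace X] [T35Space X]
    (hP : PerfectlyNormalSpace (Cp (Cp X))) :
    (∀ n : ℕ, ∀ D : Set (Fin n → X), DiscreteTopology D → D.Countable) ∧
    List.TFAE [
      ∀ S : Set (Cp (Cp (Cp X))), SeparableSpace S,
      LindelofSpace (Cp (Cp X)),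
      ∀ n : ℕ, LindelofSpace (Fin n → X),
      ∀ n : ℕ, HereditarilyLindelofSpace (Fin n → X),
      ¬ ∃ n : ℕ, ∃ Y : Set (Fin n → X), (∀ S ⊆ Y, SeparableSpace S) ∧ ¬ LindelofSpace Y] := by
  have hspread : ∀ n : ℕ, ∀ D : Set (Fin n → X), DiscreteTopology D → D.Countable :=
    fun n D hD => spread (cs_powers n) D hD
  have h6 : (∀ S : Set (Cp X), SeparableSpace S) → ∀ n : ℕ, HereditarilyLindelofSpace (Fin n → X) :=
    fun h n => HereditarilyLindelofSpace.of_forall_isOpen fun O _ => hl_powers h n O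
  refine ⟨hspread, ?_⟩
  tfae_have 3 → 1 := fun h => hs_of_hl (hl_of_hs (hs_powers h))
  tfae_have 1 → 4 := fun h => h6 (hs_cp_of_hs_cpcpcp h)
  tfae_have 4 → 3 := fun h n => by have := h n; infer_instance
  tfae_have 3 → 2 := by
    intro h
    have h1 := hl_of_hs (hs_powers h) 1 univ
    have h2 := h1.image (f := fun g : Fin 1 → Cp (Cp X) => g 0) (continuous_apply 0)
    refine ⟨?_⟩
    convert h2
    rw [image_univ, eq_comm, range_eq_univ]
    exact fun g => ⟨fun _ => g, rfl⟩
  tfae_have 2 → 4 := by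
    intro h
    exact h6 (hs_of_hl_cp fun S => hl_of_lindelof S)
  tfae_have 4 → 5 := by
    rintro h ⟨n, Y, -, hY⟩
    have := h n
    exact hY (isLindelof_iff_lindelofSpace.1 (HereditarilyLindelofSpace.isLindelof Y))
  tfae_have 5 → 4 := by
    intro h n
    refine HereditarilyLindelofSpace.of_forall_isOpen fun O _ => ?_
    by_contra hO
    obtain ⟨Y, hY, hYL⟩ := exists_sspace (hspread n) O hO
    exact h ⟨n, Y, hY, fun h' => hYL (isLindelof_iff_lindelofSpace.2 h')⟩
  tfae_finish

end Pool.Agent.CpPN
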