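import Mathlib

/-!
# Function spaces with the topology of pointwise convergence: basic lemmas

`Cp Y` is the set of all continuous functions `Y → ℝ` with the subspace topology of the product.
-/

set_option autoImplicit false
open TopologicalSpace Set

namespace Pool.Agent.CpPN

universe u

/-- `C_p(Y)`. -/
abbrev Cp (Y : Type u) [TopologicalSpace Y] : Type u := {f : Y → ℝ // Continuous f}

section basic
variable {Y : Type u} [TopologicalSpace Y]

/-- Evaluation is continuous on `Cp Y`. -/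
lemma continuous_eval (y : Y) : Continuous (fun f : Cp Y => f.1 y) :=
  (continuous_apply y).comp continuous_subtype_val

/-- neighbourhoods in finite powers of `Cp Y`. -/
lemma exists_fin_eps {n : ℕ} {G : Set (Fin n → Cp Y)} (hG : IsOpen G) {f : Fin n → Cp Y}
    (hf : f ∈ G) :
    ∃ F : Finset Y, ∃ ε : ℝ, 0 < ε ∧ ∀ g : Fin n → Cp Y,
      (∀ j, ∀ q ∈ F, |(g j).1 q - (f j).1 q| < ε) → g ∈ G := by
  classical
  -- the topology is induced from `Fin n → Y → ℝ`
  have hind : Topology.IsInducing (fun (g : Fin n → Cp Y) (j : Fin n) => (g j).1) := by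
    refine ⟨?_⟩
    simp only [Pi.topologicalSpace, instTopologicalSpaceSubtype, induced_iInf, induced_compose]
    rfl
  obtain ⟨G', hG', rfl⟩ := hind.isOpen_iff.1 hG
  have hf' : (fun j => (f j).1) ∈ G' := hf
  rw [isOpen_pi_iff] at hG'
  obtain ⟨J, u, hu, hJ⟩ := hG' _ hf'
  have h1 : ∀ j : Fin n, ∃ F : Finset Y, ∃ ε : ℝ, 0 < ε ∧ ∀ g : Y → ℝ,
      (∀ q ∈ F, |g q - (f j).1 q| < ε) → (j ∈ J → g ∈ u j) := by
    intro j
    by_cases hj : j ∈ J
    · obtain ⟨huo, hfu⟩ := hu j hj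
      rw [isOpen_pi_iff] at huo
      obtain ⟨I, v, hv, hI⟩ := huo _ hfu
      have h2 : ∀ q : Y, ∃ ε : ℝ, 0 < ε ∧ ∀ r : ℝ, |r - (f j).1 q| < ε → (q ∈ I → r ∈ v q) := by
        intro q
        by_cases hq : q ∈ I
        · obtain ⟨hvo, hfv⟩ := hv q hq
          obtain ⟨ε, hε, hb⟩ := Metric.isOpen_iff.1 hvo _ hfv
          exact ⟨ε, hε, fun r hr _ => hb (by rw [Metric.mem_ball, Real.dist_eq]; exact hr)⟩
        · exact ⟨1, one_pos, fun r _ h => absurd h hq⟩
      choose e he heI using h2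
      rcases I.eq_empty_or_nonempty with hIe | hIne
      · refine ⟨∅, 1, one_pos, fun g _ _ => hI ?_⟩
        subst hIe
        simp
      · refine ⟨I, I.inf' hIne e, ?_, fun g hg _ => hI ?_⟩
        · rw [Finset.lt_inf'_iff]
          exact fun q _ => he q
        · intro q hq
          exact heI q _ (lt_of_lt_of_le (hg q hq) (Finset.inf'_le _ hq)) hq
    · exact ⟨∅, 1, one_pos, fun g _ h => absurd h hj⟩
  choose F ε hε hF using h1
  rcases Nat.eq_zero_or_pos n with hn | hn
  · subst hn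
    refine ⟨∅, 1, one_pos, fun g _ => ?_⟩
    have : g = f := Subsingleton.elim _ _
    rw [this]; exact hf
  · haveI : Nonempty (Fin n) := ⟨⟨0, hn⟩⟩
    refine ⟨Finset.univ.biUnion F, Finset.univ.inf' Finset.univ_nonempty ε, ?_, fun g hg => ?_⟩
    · rw [Finset.lt_inf'_iff]
      exact fun j _ => hε j
    · refine hJ ?_
      intro j hj
      refine hF j _ (fun q hq => lt_of_lt_of_le (hg j q ?_) (Finset.inf'_le _ (Finset.mem_univ j))) hj
      exact Finset.mem_biUnion.2 ⟨j, Finset.mem_univ _, hq⟩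

/-- neighbourhoods in `Cp Y`. -/
lemma exists_fin_eps_one {G : Set (Cp Y)} (hG : IsOpen G) {f : Cp Y} (hf : f ∈ G) :
    ∃ F : Finset Y, ∃ ε : ℝ, 0 < ε ∧ ∀ g : Cp Y,
      (∀ q ∈ F, |g.1 q - f.1 q| < ε) → g ∈ G := by
  have hc : Continuous (fun g : Fin 1 → Cp Y => g 0) := continuous_apply 0
  obtain ⟨F, ε, hε, hF⟩ := exists_fin_eps (hG.preimage hc) (f := fun _ => f) hf
  exact ⟨F, ε, hε, fun g hg => hF (fun _ => g) (fun _ q hq => hg q hq)⟩

/-- Sets given by finitely many coordinates and an `ε` are open. -/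
lemma isOpen_fin_eps {n : ℕ} (F : Finset Y) (ε : ℝ) (v : Fin n → Y → ℝ) :
    IsOpen {g : Fin n → Cp Y | ∀ j, ∀ q ∈ F, |(g j).1 q - v j q| < ε} := by
  have : {g : Fin n → Cp Y | ∀ j, ∀ q ∈ F, |(g j).1 q - v j q| < ε} =
      ⋂ j : Fin n, ⋂ q ∈ F, {g : Fin n → Cp Y | |(g j).1 q - v j q| < ε} := by
    ext g; simp
  rw [this]
  refine isOpen_iInter_of_finite fun j => isOpen_biInter_finset fun q _ => ?_
  refine isOpen_lt ?_ continuous_const
  exact (((continuous_eval q).comp (continuous_apply j)).sub continuous_const).abs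

lemma isOpen_fin_eps_one (F : Finset Y) (ε : ℝ) (v : Y → ℝ) :
    IsOpen {g : Cp Y | ∀ q ∈ F, |g.1 q - v q| < ε} := by
  have : {g : Cp Y | ∀ q ∈ F, |g.1 q - v q| < ε} =
      ⋂ q ∈ F, {g : Cp Y | |g.1 q - v q| < ε} := by
    ext g; simp
  rw [this]
  refine isOpen_biInter_finset fun q _ => ?_
  exact isOpen_lt (((continuous_eval q).sub continuous_const).abs) continuous_const

/-- Bump functions. -/
lemma exists_bump [T35Space Y] (y : Y) {U : Set Y} (hU : IsOpen U) (hy : y ∈ U) :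
    ∃ φ : Y → ℝ, Continuous φ ∧ φ y = 1 ∧ (∀ z, z ∉ U → φ z = 0) ∧ ∀ z, 0 ≤ φ z ∧ φ z ≤ 1 := by
  obtain ⟨f, hf, h0, h1⟩ := CompletelyRegularSpace.completely_regular y Uᶜ hU.isClosed_compl
    (by simpa using hy)
  refine ⟨fun z => 1 - (f z : ℝ), continuous_const.sub (continuous_subtype_val.comp hf), ?_, ?_, ?_⟩
  · simp [h0]
  · intro z hz
    have := h1 (show z ∈ Uᶜ from hz)
    simp only [Pi.one_apply] at this
    simp [this]
  · intro z
    have := (f z).2
    exact ⟨by linarith [this.2], by linarith [this.1]⟩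

/-- Interpolation at finitely many points. -/
lemma exists_interp [T35Space Y] (F : Finset Y) (v : Y → ℝ) :
    ∃ f : Cp Y, ∀ q ∈ F, f.1 q = v q := by
  classical
  have h : ∀ q : Y, ∃ φ : Y → ℝ, Continuous φ ∧ φ q = 1 ∧ ∀ z ∈ F, z ≠ q → φ z = 0 := by
    intro q
    obtain ⟨φ, hφ, h1, h0, -⟩ := exists_bump q (U := ((F.erase q : Finset Y) : Set Y)ᶜ)
      (Finset.finite_toSet _).isClosed.isOpen_compl (by simp)
    exact ⟨φ, hφ, h1, fun z hz hzq => h0 z (by simp [hz, hzq])⟩
  choose φ hφ h1 h0 using h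
  refine ⟨⟨fun z => ∑ q ∈ F, v q * φ q z, continuous_finset_sum _ fun q _ =>
    continuous_const.mul (hφ q)⟩, fun q hq => ?_⟩
  show ∑ r ∈ F, v r * φ r q = v q
  rw [Finset.sum_eq_single q]
  · rw [h1, mul_one]
  · intro r _ hr
    rw [h0 r q hq hr.symm, mul_zero]
  · intro h; exact absurd hq h

end basic

/-- Separability of a subspace in terms of ambient closures. -/
lemma separable_iff {T : Type u} [TopologicalSpace T] (S : Set T) :
    SeparableSpace S ↔ ∃ D : Set T, D ⊆ S ∧ D.Countable ∧ S ⊆ closure D := by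
  constructor
  · intro h
    obtain ⟨D, hDc, hD⟩ := exists_countable_dense S
    refine ⟨(↑) '' D, ?_, hDc.image _, ?_⟩
    · rintro _ ⟨x, _, rfl⟩; exact x.2
    · intro x hx
      have : (⟨x, hx⟩ : S) ∈ closure D := hD _
      rw [closure_subtype] at this
      exact this
  · rintro ⟨D, hDS, hDc, hD⟩
    refine ⟨⟨(↑) ⁻¹' D, hDc.preimage Subtype.val_injective, ?_⟩⟩
    intro x
    rw [closure_subtype]
    have : ((↑) '' ((↑) ⁻¹' D : Set S) : Set T) = D := by
      rw [Subtype.image_preimage_coe]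
      exact inter_eq_right.2 hDS
    rw [this]
    exact hD x.2

end Pool.Agent.CpPN
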