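import Pool.Agent.CpPN.Powers

/-!
# Dualities between `Y ^ n` and `C_p(Y)`; S-spaces
-/

set_option autoImplicit false
open TopologicalSpace Set

namespace Pool.Agent.CpPN

universe u

/-- Countable tightness of `C_p(Y) ^ n` when all finite powers of `Y` are Lindelof. -/
theorem tight {Y : Type u} [TopologicalSpace Y] (h : ∀ k : ℕ, LindelofSpace (Fin k → Y)) (n : ℕ)
    (A : Set (Fin n → Cp Y)) (f : Fin n → Cp Y) (hf : f ∈ closure A) :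
    ∃ A' : Set (Fin n → Cp Y), A' ⊆ A ∧ A'.Countable ∧ f ∈ closure A' := by
  classical
  have h1 : ∀ km : ℕ × ℕ, ∃ B : Set (Fin n → Cp Y), B ⊆ A ∧ B.Countable ∧
      ∀ x : Fin km.1 → Y, ∃ a ∈ B, ∀ j i, |(a j).1 (x i) - (f j).1 (x i)| < 1 / (km.2 + 1 : ℝ) := by
    rintro ⟨k, m⟩
    have hm : (0 : ℝ) < 1 / (m + 1 : ℝ) := by positivity
    let O : (Fin n → Cp Y) → Set (Fin k → Y) := fun a =>
      {x | ∀ j i, |(a j).1 (x i) - (f j).1 (x i)| < 1 / (m + 1 : ℝ)}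
    have hO : ∀ a, IsOpen (O a) := by
      intro a
      have : O a = ⋂ j, ⋂ i, {x : Fin k → Y | |(a j).1 (x i) - (f j).1 (x i)| < 1 / (m + 1 : ℝ)} := by
        ext x; simp [O]
      rw [this]
      refine isOpen_iInter_of_finite fun j => isOpen_iInter_of_finite fun i => ?_
      refine isOpen_lt ?_ continuous_const
      exact (((a j).2.comp (continuous_apply i)).sub ((f j).2.comp (continuous_apply i))).abs
    have hcov : (univ : Set (Fin k → Y)) ⊆ ⋃ a : A, O a := by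
      intro x _
      rw [mem_closure_iff] at hf
      have h2 := hf {g | ∀ j, ∀ q ∈ Finset.univ.image x, |(g j).1 q - (f j).1 q| < 1 / (m + 1 : ℝ)}
        (isOpen_fin_eps _ _ _) (by intro j q _; simpa using hm)
      obtain ⟨a, ha, haA⟩ := h2
      exact mem_iUnion.2 ⟨⟨a, haA⟩, fun j i => ha j (x i) (Finset.mem_image_of_mem _ (Finset.mem_univ _))⟩
    have hl : IsLindelof (univ : Set (Fin k → Y)) := (h k).isLindelof_univ
    obtain ⟨r, hr, hrc⟩ := hl.elim_countable_subcover (fun a : A => O a) (fun a => hO a) hcov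
    refine ⟨(↑) '' r, ?_, hr.image _, fun x => ?_⟩
    · rintro _ ⟨a, _, rfl⟩; exact a.2
    · obtain ⟨a, ha, hx⟩ := mem_iUnion₂.1 (hrc (mem_univ x))
      exact ⟨a, ⟨a, ha, rfl⟩, hx⟩
  choose B hBA hBc hB using h1
  refine ⟨⋃ km, B km, iUnion_subset hBA, countable_iUnion hBc, ?_⟩
  rw [mem_closure_iff]
  intro O hO hfO
  obtain ⟨F, ε, hε, hF⟩ := exists_fin_eps hO hfO
  obtain ⟨m, hm⟩ := exists_nat_one_div_lt hε
  obtain ⟨a, haB, ha⟩ := hB (F.card, m) (fun i => (F.equivFin.symm i : Y))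
  refine ⟨a, hF a fun j q hq => ?_, mem_iUnion.2 ⟨_, haB⟩⟩
  have := ha j (F.equivFin ⟨q, hq⟩)
  simp only [Equiv.symm_apply_apply] at this
  exact this.trans hm

/-- If `Y ^ n` is hereditarily separable for all `n`, then `C_p(Y) ^ m` is hereditarily
Lindelof for all `m`. -/
theorem hl_of_hs {Y : Type u} [TopologicalSpace Y]
    (h : ∀ k : ℕ, ∀ S : Set (Fin k → Y), SeparableSpace S) (m : ℕ) (S : Set (Fin m → Cp Y)) :
    IsLindelof S := by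
  classical
  refine isLindelof_of_countable_subcover fun {ι} U hU hSU => ?_
  -- choose basic neighbourhoods
  have h1 : ∀ Φ : Fin m → Cp Y, Φ ∈ S → ∃ i : ι, ∃ k : ℕ, ∃ x : Fin k → Y, ∃ N : ℕ,
      ∀ Ψ : Fin m → Cp Y, (∀ j l, |(Ψ j).1 (x l) - (Φ j).1 (x l)| < 1 / (N + 1 : ℝ)) → Ψ ∈ U i := by
    intro Φ hΦ
    obtain ⟨i, hi⟩ := mem_iUnion.1 (hSU hΦ)
    obtain ⟨F, ε, hε, hF⟩ := exists_fin_eps (hU i) hi
    obtain ⟨N, hN⟩ := exists_nat_one_div_lt hε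
    refine ⟨i, F.card, fun l => (F.equivFin.symm l : Y), N, fun Ψ hΨ => hF Ψ fun j q hq => ?_⟩
    have := hΨ j (F.equivFin ⟨q, hq⟩)
    simp only [Equiv.symm_apply_apply] at this
    exact this.trans hN
  -- types
  let Ty : Type := Σ k : ℕ, ℕ × (Fin m → Fin k → ℚ)
  -- for every type, the set of `(x, Φ)`
  let Q : Ty → ι → (Fin m → Cp Y) → Set (Fin m → Cp Y) := fun _ _ _ => ∅
  have h2 : ∀ t : Ty, ∃ r : Set ι, r.Countable ∧ ∀ Φ ∈ S, ∀ i : ι, ∀ x : Fin t.1 → Y,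
      (∀ Ψ : Fin m → Cp Y, (∀ j l, |(Ψ j).1 (x l) - (Φ j).1 (x l)| < 1 / (t.2.1 + 1 : ℝ)) → Ψ ∈ U i) →
      (∀ j l, |(Φ j).1 (x l) - t.2.2 j l| < 1 / (t.2.1 + 1 : ℝ) / 2) → Φ ∈ ⋃ i ∈ r, U i := by
    rintro ⟨k, N, v⟩
    simp only
    set ε : ℝ := 1 / (N + 1 : ℝ) with hε
    have hεpos : 0 < ε := by positivity
    let P : Set (Fin k → Y) := {x | ∃ Φ ∈ S, ∃ i : ι, (∀ Ψ : Fin m → Cp Y,
      (∀ j l, |(Ψ j).1 (x l) - (Φ j).1 (x l)| < ε) → Ψ ∈ U i) ∧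
      (∀ j l, |(Φ j).1 (x l) - v j l| < ε / 2)}
    obtain ⟨D, hDP, hDc, hD⟩ := (separable_iff P).1 (h k P)
    have h3 : ∀ x ∈ D, ∃ i : ι, ∃ Φ ∈ S, (∀ Ψ : Fin m → Cp Y,
      (∀ j l, |(Ψ j).1 (x l) - (Φ j).1 (x l)| < ε) → Ψ ∈ U i) ∧
      (∀ j l, |(Φ j).1 (x l) - v j l| < ε / 2) := by
      intro x hx
      obtain ⟨Φ, hΦ, i, h4, h5⟩ := hDP hx
      exact ⟨i, Φ, hΦ, h4, h5⟩
    rcases isEmpty_or_nonempty ι with hι | hι
    · refine ⟨∅, countable_empty, fun Φ _ i => (hι.false i).elim⟩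
    choose! i Φ' hΦ' h4 h5 using h3
    refine ⟨i '' D, hDc.image _, ?_⟩
    intro Φ hΦ i₀ x hx hxv
    have hxP : x ∈ P := ⟨Φ, hΦ, i₀, hx, hxv⟩
    have h6 := hD hxP
    rw [mem_closure_iff] at h6
    obtain ⟨z, hz, hzD⟩ := h6 {z | ∀ j l, |(Φ j).1 (z l) - v j l| < ε / 2} (by
      have : {z : Fin k → Y | ∀ j l, |(Φ j).1 (z l) - v j l| < ε / 2} =
        ⋂ j, ⋂ l, {z | |(Φ j).1 (z l) - v j l| < ε / 2} := by ext; simp
      rw [this]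
      refine isOpen_iInter_of_finite fun j => isOpen_iInter_of_finite fun l => ?_
      exact isOpen_lt ((((Φ j).2.comp (continuous_apply l)).sub continuous_const).abs)
        continuous_const) hxv
    refine mem_iUnion₂.2 ⟨i z, mem_image_of_mem _ hzD, h4 z hzD Φ fun j l => ?_⟩
    have h7 := hz j l
    have h8 := h5 z hzD j l
    rw [abs_lt] at h7 h8 ⊢
    constructor <;> linarith [h7.1, h7.2, h8.1, h8.2]
  choose r hrc hr using h2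
  refine ⟨⋃ t, r t, countable_iUnion hrc, fun Φ hΦ => ?_⟩
  obtain ⟨i, k, x, N, hx⟩ := h1 Φ hΦ
  have h3 : ∀ j l, ∃ q : ℚ, |(Φ j).1 (x l) - q| < 1 / (N + 1 : ℝ) / 2 := by
    intro j l
    have hpos : (0 : ℝ) < 1 / (N + 1 : ℝ) / 2 := by positivity
    obtain ⟨q, hq1, hq2⟩ := exists_rat_btwn (show (Φ j).1 (x l) - 1 / (N + 1 : ℝ) / 2 < (Φ j).1 (x l) by linarith)
    refine ⟨q, ?_⟩
    rw [abs_lt]; constructor <;> linarith
  choose v hv using h3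
  have h4 := hr ⟨k, N, v⟩ Φ hΦ i x hx hv
  obtain ⟨i', hi', hΦi'⟩ := mem_iUnion₂.1 h4
  exact mem_iUnion₂.2 ⟨i', mem_iUnion.2 ⟨_, hi'⟩, hΦi'⟩

/-- If `Y ^ n` is hereditarily Lindelof for all `n` then `C_p(Y)` is hereditarily separable. -/
theorem hs_of_hl {Y : Type u} [TopologicalSpace Y]
    (h : ∀ k : ℕ, ∀ S : Set (Fin k → Y), IsLindelof S) (S : Set (Cp Y)) : SeparableSpace S := by
  classical
  rw [separable_iff]
  have h1 : ∀ t : (Σ k : ℕ, ℕ × (Fin k → ℚ)), ∃ r : Set (Cp Y), r ⊆ S ∧ r.Countable ∧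
      ∀ x : Fin t.1 → Y, (∃ Ψ ∈ S, ∀ l, |Ψ.1 (x l) - t.2.2 l| < 1 / (t.2.1 + 1 : ℝ)) →
        ∃ Ψ ∈ r, ∀ l, |Ψ.1 (x l) - t.2.2 l| < 1 / (t.2.1 + 1 : ℝ) := by
    rintro ⟨k, N, v⟩
    simp only
    let O : Cp Y → Set (Fin k → Y) := fun Ψ => {x | ∀ l, |Ψ.1 (x l) - v l| < 1 / (N + 1 : ℝ)}
    have hO : ∀ Ψ, IsOpen (O Ψ) := by
      intro Ψ
      have : O Ψ = ⋂ l, {x : Fin k → Y | |Ψ.1 (x l) - v l| < 1 / (N + 1 : ℝ)} := by ext; simp [O]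
      rw [this]
      refine isOpen_iInter_of_finite fun l => ?_
      exact isOpen_lt (((Ψ.2.comp (continuous_apply l)).sub continuous_const).abs) continuous_const
    obtain ⟨r, hrc, hr⟩ := (h k (⋃ Ψ : S, O Ψ)).elim_countable_subcover (fun Ψ : S => O Ψ)
      (fun Ψ => hO Ψ) Subset.rfl
    refine ⟨(↑) '' r, ?_, hrc.image _, ?_⟩
    · rintro _ ⟨a, _, rfl⟩; exact a.2
    · rintro x ⟨Ψ, hΨ, hx⟩
      obtain ⟨Ψ', hΨ', hx'⟩ := mem_iUnion₂.1 (hr (mem_iUnion.2 ⟨⟨Ψ, hΨ⟩, hx⟩))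
      exact ⟨Ψ', ⟨Ψ', hΨ', rfl⟩, hx'⟩
  choose r hrS hrc hr using h1
  refine ⟨⋃ t, r t, iUnion_subset hrS, countable_iUnion hrc, fun Ψ hΨ => ?_⟩
  rw [mem_closure_iff]
  intro O hO hΨO
  obtain ⟨F, ε, hε, hF⟩ := exists_fin_eps_one hO hΨO
  obtain ⟨N, hN⟩ := exists_nat_one_div_lt (show 0 < ε / 2 by linarith)
  have h3 : ∀ l : Fin F.card, ∃ q : ℚ, |Ψ.1 (F.equivFin.symm l : Y) - q| < 1 / (N + 1 : ℝ) := by
    intro l
    have hpos : (0 : ℝ) < 1 / (N + 1 : ℝ) := by positivity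
    obtain ⟨q, hq1, hq2⟩ := exists_rat_btwn
      (show Ψ.1 (F.equivFin.symm l : Y) - 1 / (N + 1 : ℝ) < Ψ.1 (F.equivFin.symm l : Y) by linarith)
    refine ⟨q, ?_⟩
    rw [abs_lt]; constructor <;> linarith
  choose v hv using h3
  obtain ⟨Φ, hΦr, hΦ⟩ := hr ⟨F.card, N, v⟩ (fun l => (F.equivFin.symm l : Y)) ⟨Ψ, hΨ, hv⟩
  refine ⟨Φ, hF Φ fun q hq => ?_, mem_iUnion.2 ⟨_, hΦr⟩⟩
  have h5 := hΦ (F.equivFin ⟨q, hq⟩)
  have h6 := hv (F.equivFin ⟨q, hq⟩)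
  simp only [Equiv.symm_apply_apply] at h5 h6
  rw [abs_lt] at h5 h6 ⊢
  constructor <;> linarith [h5.1, h5.2, h6.1, h6.2]

end Pool.Agent.CpPN
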