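import Pool.Agent.CpPN.Basic

/-!
# Perfect normality of `Cp Y` and closed subsets of finite powers of `Y`
-/

set_option autoImplicit false
open TopologicalSpace Set

namespace Pool.Agent.CpPN

universe u
variable {Y : Type u} [TopologicalSpace Y]

/-- points of a list of conditions -/
def pts (l : List (Y × ℚ × ℚ)) : Set Y := {y | ∃ p ∈ l, p.1 = y}

/-- the box given by a list of conditions -/
def box (l : List (Y × ℚ × ℚ)) : Set (Cp Y) :=
  {f | ∀ p ∈ l, (p.2.1 : ℝ) < f.1 p.1 ∧ f.1 p.1 < (p.2.2 : ℝ)}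

lemma pts_finite (l : List (Y × ℚ × ℚ)) : (pts l).Finite := by
  classical
  have : pts l = ((l.map Prod.fst).toFinset : Set Y) := by
    ext y
    simp only [pts, mem_ofPred_eq, List.coe_toFinset, List.mem_map]
  rw [this]; exact Finset.finite_toSet _

/-- closing off a countable set under countably many operations on finite lists -/
lemma closing_off (Φ : ℕ → List (Y × ℚ × ℚ) → List (Y × ℚ × ℚ)) :
    ∃ A : Set Y, A.Countable ∧ ∀ k l, pts l ⊆ A → pts (Φ k l) ⊆ A := by
  classical
  let L : Set Y → Set (List (Y × ℚ × ℚ)) := fun A => {l | pts l ⊆ A}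
  have hL : ∀ A : Set Y, A.Countable → (L A).Countable := by
    intro A hA
    haveI := hA.to_subtype
    have : L A ⊆ range (fun l : List (A × ℚ × ℚ) => l.map (fun p => ((p.1 : Y), p.2))) := by
      intro l hl
      induction l with
      | nil => exact ⟨[], rfl⟩
      | cons p l ih =>
        have h1 : pts l ⊆ A := fun y ⟨q, hq, hy⟩ => hl ⟨q, List.mem_cons_of_mem _ hq, hy⟩
        obtain ⟨l', hl'⟩ := ih h1
        have hp : p.1 ∈ A := hl ⟨p, List.mem_cons_self, rfl⟩
        refine ⟨(⟨p.1, hp⟩, p.2) :: l', ?_⟩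
        simp only [List.map_cons]
        simp only at hl'
        rw [hl']
    exact (countable_range _).mono this
  let S : Set Y → Set Y := fun A => A ∪ ⋃ k : ℕ, ⋃ l ∈ L A, pts (Φ k l)
  have hS : ∀ A : Set Y, A.Countable → (S A).Countable := by
    intro A hA
    refine hA.union (countable_iUnion fun k => ?_)
    exact (hL A hA).biUnion fun l _ => (pts_finite _).countable
  let B : ℕ → Set Y := fun n => Nat.rec ∅ (fun _ A => S A) n
  have hB : ∀ n, (B n).Countable := by
    intro n
    induction n with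
    | zero => exact countable_empty
    | succ n ih => exact hS _ ih
  have hmono : Monotone B := monotone_nat_of_le_succ fun n => subset_union_left
  refine ⟨⋃ n, B n, countable_iUnion hB, fun k l hl => ?_⟩
  -- the finite set `pts l` is contained in some `B n`
  have h2 : ∃ n, pts l ⊆ B n := by
    have hfin := pts_finite l
    have h3 : ∀ y ∈ pts l, ∃ n, y ∈ B n := fun y hy => mem_iUnion.1 (hl hy)
    choose! N hN using h3
    obtain ⟨M, hM⟩ := (hfin.image N).bddAbove
    exact ⟨M, fun y hy => hmono (hM ⟨y, hy, rfl⟩) (hN y hy)⟩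
  obtain ⟨n, hn⟩ := h2
  intro y hy
  refine mem_iUnion.2 ⟨n + 1, Or.inr ?_⟩
  exact mem_iUnion.2 ⟨k, mem_iUnion₂.2 ⟨l, hn, hy⟩⟩

/-- Every open subset of a perfectly normal `Cp Y` is determined by a countable set of points. -/
theorem factor [T35Space Y] [PerfectlyNormalSpace (Cp Y)] (W : Set (Cp Y)) (hW : IsOpen W) :
    ∃ A : Set Y, A.Countable ∧ ∀ f ∈ W, ∃ F : Finset Y, (F : Set Y) ⊆ A ∧ ∃ ε : ℝ, 0 < ε ∧
      ∀ g : Cp Y, (∀ q ∈ F, |g.1 q - f.1 q| < ε) → g ∈ W := by
  classical
  -- `W` is a countable union of open sets whose closures lie in `W`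
  have h1 : ∃ G : ℕ → Set (Cp Y), (∀ k, IsOpen (G k)) ∧ (∀ k, closure (G k) ⊆ W) ∧
      W ⊆ ⋃ k, G k := by
    have hG : IsGδ Wᶜ := PerfectlyNormalSpace.closed_gdelta hW.isClosed_compl
    obtain ⟨T, hTo, hTc, hT⟩ := hG
    obtain ⟨u, hu⟩ : ∃ u : ℕ → Set (Cp Y), insert univ T = range u :=
      (hTc.insert univ).exists_eq_range (insert_nonempty _ _)
    have huo : ∀ k, IsOpen (u k) := by
      intro k
      have : u k ∈ insert univ T := hu ▸ mem_range_self k
      rcases this with h | h
      · rw [h]; exact isOpen_univ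
      · exact hTo _ h
    have huW : ∀ k, (u k)ᶜ ⊆ W := by
      intro k f hf
      by_contra hfW
      have : f ∈ Wᶜ := hfW
      rw [hT] at this
      have hk : u k ∈ insert univ T := hu ▸ mem_range_self k
      rcases hk with h | h
      · rw [h] at hf; exact hf (mem_univ _)
      · exact hf (this _ h)
    have hcov : W ⊆ ⋃ k, (u k)ᶜ := by
      intro f hf
      by_contra h
      have h3 : f ∈ Wᶜ := by
        rw [hT]
        intro t ht
        have : t ∈ range u := hu ▸ mem_insert_of_mem _ ht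
        obtain ⟨k, rfl⟩ := this
        by_contra h4
        exact h (mem_iUnion.2 ⟨k, h4⟩)
      exact h3 hf
    have h5 : ∀ k, ∃ G : Set (Cp Y), IsOpen G ∧ (u k)ᶜ ⊆ G ∧ closure G ⊆ W := fun k =>
      normal_exists_closure_subset (huo k).isClosed_compl hW (huW k)
    choose G hGo hGs hGc using h5
    exact ⟨G, hGo, hGc, hcov.trans (iUnion_mono hGs)⟩
  obtain ⟨G, hGo, hGc, hWG⟩ := h1
  -- choice of small boxes
  have h2 : ∀ (k : ℕ) (l : List (Y × ℚ × ℚ)), ∃ l' : List (Y × ℚ × ℚ),
      (G k ∩ box l).Nonempty → (box l').Nonempty ∧ box l' ⊆ G k ∩ box l := by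
    intro k l
    by_cases hne : (G k ∩ box l).Nonempty
    · obtain ⟨f, hfG, hfl⟩ := hne
      obtain ⟨F, ε, hε, hF⟩ := exists_fin_eps_one (hGo k) hfG
      have hq : ∀ q : Y, ∃ ab : ℚ × ℚ, f.1 q - ε < ab.1 ∧ (ab.1 : ℝ) < f.1 q ∧
          f.1 q < ab.2 ∧ (ab.2 : ℝ) < f.1 q + ε := by
        intro q
        obtain ⟨a, ha1, ha2⟩ := exists_rat_btwn (show f.1 q - ε < f.1 q by linarith)
        obtain ⟨b, hb1, hb2⟩ := exists_rat_btwn (show f.1 q < f.1 q + ε by linarith)
        exact ⟨(a, b), ha1, ha2, hb1, hb2⟩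
      choose ab hab using hq
      refine ⟨l ++ F.toList.map (fun q => (q, ab q)), fun _ => ⟨⟨f, ?_⟩, ?_⟩⟩
      · intro p hp
        rcases List.mem_append.1 hp with h | h
        · exact hfl p h
        · obtain ⟨q, _, rfl⟩ := List.mem_map.1 h
          exact ⟨(hab q).2.1, (hab q).2.2.1⟩
      · intro g hg
        refine ⟨hF g fun q hq => ?_, fun p hp => hg p (List.mem_append_left _ hp)⟩
        have := hg (q, ab q) (List.mem_append_right _
          (List.mem_map.2 ⟨q, Finset.mem_toList.2 hq, rfl⟩))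
        have h3 := hab q
        rw [abs_lt]
        constructor <;> [linarith [this.1, h3.1]; linarith [this.2, h3.2.2.2]]
    · exact ⟨[], fun h => absurd h hne⟩
  choose Φ hΦ using h2
  obtain ⟨A, hA, hAΦ⟩ := closing_off Φ
  refine ⟨A, hA, fun f hf => ?_⟩
  obtain ⟨k, hk⟩ := mem_iUnion.1 (hWG hf)
  obtain ⟨F₁, ε, hε, hF₁⟩ := exists_fin_eps_one (hGo k) hk
  refine ⟨F₁.filter (· ∈ A), by intro q hq; simpa using (Finset.mem_filter.1 hq).2, ε, hε, ?_⟩
  intro g hg
  refine hGc k ?_
  rw [mem_closure_iff]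
  intro O hO hgO
  obtain ⟨F₂, δ, hδ, hF₂⟩ := exists_fin_eps_one hO hgO
  -- the function `f₁`
  obtain ⟨f₁, hf₁⟩ := exists_interp (F₁ ∪ F₂) (fun q => if q ∈ A then g.1 q else f.1 q)
  have hf₁G : f₁ ∈ G k := by
    refine hF₁ f₁ fun q hq => ?_
    rw [hf₁ q (Finset.mem_union_left _ hq)]
    by_cases hqA : q ∈ A
    · simp only [hqA, if_true]
      exact hg q (Finset.mem_filter.2 ⟨hq, hqA⟩)
    · simp [hqA, hε]
  -- a list of conditions around `g` on `F₂ ∩ A`
  have hq : ∀ q : Y, ∃ ab : ℚ × ℚ, g.1 q - δ < ab.1 ∧ (ab.1 : ℝ) < g.1 q ∧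
      g.1 q < ab.2 ∧ (ab.2 : ℝ) < g.1 q + δ := by
    intro q
    obtain ⟨a, ha1, ha2⟩ := exists_rat_btwn (show g.1 q - δ < g.1 q by linarith)
    obtain ⟨b, hb1, hb2⟩ := exists_rat_btwn (show g.1 q < g.1 q + δ by linarith)
    exact ⟨(a, b), ha1, ha2, hb1, hb2⟩
  choose ab hab using hq
  set l : List (Y × ℚ × ℚ) := (F₂.filter (· ∈ A)).toList.map (fun q => (q, ab q)) with hl
  have hlA : pts l ⊆ A := by
    rintro y ⟨p, hp, rfl⟩
    obtain ⟨q, hq, rfl⟩ := List.mem_map.1 hp
    exact (Finset.mem_filter.1 (Finset.mem_toList.1 hq)).2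
  have hf₁l : f₁ ∈ box l := by
    intro p hp
    obtain ⟨q, hq, rfl⟩ := List.mem_map.1 hp
    obtain ⟨hq1, hq2⟩ := Finset.mem_filter.1 (Finset.mem_toList.1 hq)
    simp only
    rw [hf₁ q (Finset.mem_union_right _ hq1)]
    simp only [hq2, if_true]
    exact ⟨(hab q).2.1, (hab q).2.2.1⟩
  obtain ⟨⟨h₁, hh₁⟩, hsub⟩ := hΦ k l ⟨f₁, hf₁G, hf₁l⟩
  have hl'A := hAΦ k l hlA
  -- the function `h`
  obtain ⟨h, hh⟩ := exists_interp ((pts_finite (Φ k l)).toFinset ∪ F₂)
    (fun q => if q ∈ A then h₁.1 q else g.1 q)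
  have hhbox : h ∈ box (Φ k l) := by
    intro p hp
    have hpA : p.1 ∈ A := hl'A ⟨p, hp, rfl⟩
    rw [hh p.1 (Finset.mem_union_left _ (by simpa using ⟨p, hp, rfl⟩))]
    simp only [hpA, if_true]
    exact hh₁ p hp
  have hhG := hsub hhbox
  refine ⟨h, hF₂ h fun q hq => ?_, hhG.1⟩
  by_cases hqA : q ∈ A
  · have hmem : (q, ab q) ∈ l := List.mem_map.2
      ⟨q, Finset.mem_toList.2 (Finset.mem_filter.2 ⟨hq, hqA⟩), rfl⟩
    have h3 := hhG.2 (q, ab q) hmem
    have h4 := hab q
    rw [abs_lt]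
    constructor <;> [linarith [h3.1, h4.1]; linarith [h3.2, h4.2.2.2]]
  · rw [hh q (Finset.mem_union_right _ hq)]
    simp [hqA, hδ]

/-- **Lemma A.** If `Cp Y` is perfectly normal, every closed subset of `Y ^ n` lying in a product
of pairwise disjoint closed sets is separable. -/
theorem separable_of_disjoint [T35Space Y] [PerfectlyNormalSpace (Cp Y)] {n : ℕ}
    (C : Fin n → Set Y) (hC : ∀ i, IsClosed (C i)) (hd : ∀ i j, i ≠ j → Disjoint (C i) (C j))
    (L : Set (Fin n → Y)) (hL : IsClosed L) (hLC : ∀ y ∈ L, ∀ i, y i ∈ C i) :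
    ∃ D : Set (Fin n → Y), D ⊆ L ∧ D.Countable ∧ L ⊆ closure D := by
  classical
  let W : Set (Cp Y) := {f | ∃ y ∈ L, ∀ i, 1 < f.1 (y i)}
  have hWo : IsOpen W := by
    have : W = ⋃ y ∈ L, ⋂ i, {f : Cp Y | 1 < f.1 (y i)} := by
      ext f; simp [W]
    rw [this]
    refine isOpen_biUnion fun y _ => isOpen_iInter_of_finite fun i => ?_
    exact isOpen_lt continuous_const (continuous_eval (y i))
  obtain ⟨A, hA, hAW⟩ := factor W hWo
  refine ⟨L ∩ {y | ∀ i, y i ∈ A}, inter_subset_left, ?_, ?_⟩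
  · refine Countable.mono inter_subset_right ?_
    exact Set.countable_pi fun _ => hA
  · intro y hy
    rw [mem_closure_iff]
    intro N hN hyN
    rw [isOpen_pi_iff] at hN
    obtain ⟨I, u, hu, hI⟩ := hN y hyN
    -- open sets `N i ∋ y i` avoiding `C j` for `j ≠ i` and inside `u i`
    let Nb : Fin n → Set Y := fun i => (if i ∈ I then u i else univ) ∩ (⋃ j : {j : Fin n // j ≠ i}, C j)ᶜ
    have hNb : ∀ i, IsOpen (Nb i) := by
      intro i
      refine IsOpen.inter ?_ ?_
      · split_ifs with h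
        · exact (hu i h).1
        · exact isOpen_univ
      · exact (isClosed_iUnion_of_finite fun j => hC _).isOpen_compl
    have hyNb : ∀ i, y i ∈ Nb i := by
      intro i
      refine ⟨?_, ?_⟩
      · split_ifs with h
        · exact (hu i h).2
        · exact mem_univ _
      · intro h
        obtain ⟨⟨j, hj⟩, hyj⟩ := mem_iUnion.1 h
        exact (Set.disjoint_left.1 (hd j i hj)) hyj (hLC y hy i)
    have hNbC : ∀ i j, ∀ z, z ∈ Nb j → z ∈ C i → j = i := by
      intro i j z hz hzC
      by_contra hne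
      exact hz.2 (mem_iUnion.2 ⟨⟨i, fun h => hne h.symm⟩, hzC⟩)
    -- the function `f`
    have hb : ∀ i, ∃ φ : Y → ℝ, Continuous φ ∧ φ (y i) = 1 ∧ (∀ z, z ∉ Nb i → φ z = 0) ∧
        ∀ z, 0 ≤ φ z ∧ φ z ≤ 1 := fun i => exists_bump (y i) (hNb i) (hyNb i)
    choose φ hφ hφ1 hφ0 hφr using hb
    let f : Cp Y := ⟨fun z => 2 * ∑ i, φ i z, continuous_const.mul
      (continuous_finsetSum _ fun i _ => hφ i)⟩
    have hfW : f ∈ W := by
      refine ⟨y, hy, fun i => ?_⟩
      show 1 < 2 * ∑ j, φ j (y i)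
      have : φ i (y i) ≤ ∑ j, φ j (y i) :=
        Finset.single_le_sum (f := fun j => φ j (y i)) (fun j _ => (hφr j _).1) (Finset.mem_univ i)
      rw [hφ1 i] at this
      linarith
    have hf0 : ∀ z, (∀ i, z ∉ Nb i) → f.1 z = 0 := by
      intro z hz
      show 2 * ∑ i, φ i z = 0
      rw [Finset.sum_eq_zero fun i _ => hφ0 i z (hz i), mul_zero]
    obtain ⟨F, hFA, ε, hε, hF⟩ := hAW f hfW
    -- suppose there is no point of `L ∩ A ^ n` in the neighbourhood
    by_contra hcon
    have hno : ∀ z ∈ L, (∀ i, z i ∈ A) → ¬ ∀ i, z i ∈ Nb i := by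
      intro z hz hzA hzN
      refine hcon ⟨z, hI ?_, hz, hzA⟩
      intro i hi
      have := (hzN i).1
      simpa [Finset.mem_coe.1 hi] using this
    -- small neighbourhoods of tuples not in `L`
    have hbox : ∀ p : Fin n → Y, ∃ B : Fin n → Set Y, (∀ i, IsOpen (B i)) ∧ (∀ i, p i ∈ B i) ∧
        (p ∉ L → ∀ z : Fin n → Y, (∀ i, z i ∈ B i) → z ∉ L) := by
      intro p
      by_cases hp : p ∈ L
      · exact ⟨fun _ => univ, fun _ => isOpen_univ, fun _ => mem_univ _, fun h => absurd hp h⟩
      · have := isOpen_pi_iff.1 hL.isOpen_compl p hp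
        obtain ⟨J, v, hv, hJ⟩ := this
        refine ⟨fun i => if i ∈ J then v i else univ, ?_, ?_, ?_⟩
        · intro i
          by_cases h : i ∈ J
          · simp only [h, if_true]; exact (hv i h).1
          · simp only [h, if_false]; exact isOpen_univ
        · intro i
          by_cases h : i ∈ J
          · simp only [h, if_true]; exact (hv i h).2
          · simp only [h, if_false]; exact mem_univ _
        · intro _ z hz
          refine hJ ?_
          intro i hi
          have := hz i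
          simpa [Finset.mem_coe.1 hi] using this
    choose B hBo hBp hBL using hbox
    -- the finite set of tuples from `F`
    let PF : Finset (Fin n → Y) := Fintype.piFinset fun _ => F
    -- neighbourhoods of the points of `F`
    let V : Y → Set Y := fun q => (⋂ p ∈ PF, ⋂ i : Fin n, {z | p i = q → z ∈ B p i}) ∩
      ((F.erase q : Finset Y) : Set Y)ᶜ
    have hVo : ∀ q, IsOpen (V q) := by
      intro q
      refine IsOpen.inter (isOpen_biInter_finset fun p _ => isOpen_iInter_of_finite fun i => ?_)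
        (Finset.finite_toSet _).isClosed.isOpen_compl
      by_cases h : p i = q
      · simp only [h, true_imp_iff]; exact hBo p i
      · simp only [h, false_imp_iff]; exact isOpen_univ
    have hVq : ∀ q, q ∈ V q := by
      intro q
      refine ⟨?_, by simp⟩
      simp only [mem_iInter, mem_ofPred_eq]
      intro p _ i hpi
      rw [← hpi]; exact hBp p i
    have hbq : ∀ q : Y, ∃ ψ : Y → ℝ, Continuous ψ ∧ ψ q = 1 ∧ (∀ z, z ∉ V q → ψ z = 0) ∧
        ∀ z, 0 ≤ ψ z ∧ ψ z ≤ 1 := fun q => exists_bump q (hVo q) (hVq q)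
    choose ψ hψ hψ1 hψ0 hψr using hbq
    let c : Y → ℝ := fun q => f.1 q
    have hc0 : ∀ q, 0 ≤ c q := by
      intro q
      exact mul_nonneg (by norm_num) (Finset.sum_nonneg fun i _ => (hφr i q).1)
    have hcpos : ∀ q, 0 < c q → ∃ i, q ∈ Nb i := by
      intro q hq
      by_contra h
      push Not at h
      exact hq.ne' (hf0 q h)
    have hg : ∃ g : Cp Y, (∀ q ∈ F, g.1 q = c q) ∧ ∀ z, 1 < g.1 z → ∃ q ∈ F, 1 < c q * ψ q z := by
      rcases F.eq_empty_or_nonempty with hFe | hFne
      · refine ⟨⟨fun _ => 0, continuous_const⟩, by simp [hFe], fun z hz => ?_⟩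
        have hz' : (1 : ℝ) < 0 := hz
        norm_num at hz'
      · refine ⟨⟨fun z => F.sup' hFne fun q => c q * ψ q z,
          Continuous.finset_sup'_apply hFne fun q _ => continuous_const.mul (hψ q)⟩, ?_, ?_⟩
        · intro q hq
          show F.sup' hFne (fun r => c r * ψ r q) = c q
          apply le_antisymm
          · refine Finset.sup'_le _ _ fun r hr => ?_
            by_cases hrq : r = q
            · rw [hrq, hψ1, mul_one]
            · have : q ∉ V r := by
                intro h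
                exact h.2 (by simp [hq, Ne.symm hrq])
              rw [hψ0 r q this, mul_zero]
              exact hc0 q
          · have := Finset.le_sup' (f := fun r => c r * ψ r q) hq
            simpa [hψ1] using this
        · intro z hz
          have hz' : 1 < F.sup' hFne (fun r => c r * ψ r z) := hz
          obtain ⟨q, hq, h⟩ := (Finset.lt_sup'_iff _).1 hz'
          exact ⟨q, hq, h⟩
    obtain ⟨g, hgF, hg1⟩ := hg
    have hgW : g ∈ W := hF g fun q hq => by
      rw [hgF q hq]; simp [c, hε]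
    obtain ⟨z, hzL, hz⟩ := hgW
    have h5 : ∀ i, ∃ q ∈ F, 1 < c q * ψ q (z i) := fun i => hg1 _ (hz i)
    choose q hqF hq1 using h5
    have hzV : ∀ i, z i ∈ V (q i) := by
      intro i
      by_contra h
      have := hq1 i
      rw [hψ0 _ _ h, mul_zero] at this
      norm_num at this
    have hqL : q ∈ L := by
      by_contra h
      refine hBL q h z (fun i => ?_) hzL
      have h6 := (hzV i).1
      simp only [mem_iInter] at h6
      exact h6 q (Fintype.mem_piFinset.2 hqF) i rfl
    refine hno q hqL (fun i => hFA (hqF i)) fun i => ?_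
    have hcq : 0 < c (q i) := by
      rcases (hc0 (q i)).lt_or_eq with h | h
      · exact h
      · exfalso
        have := hq1 i
        rw [← h, zero_mul] at this
        norm_num at this
    obtain ⟨j, hj⟩ := hcpos _ hcq
    have e := hNbC i j _ hj (hLC q hqL i)
    rw [e] at hj
    exact hj

end Pool.Agent.CpPN
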