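import Pool.Agent.CpPN.Powers

/-!
# Locally countable closed subspaces

If `Z` is normal, all closed subspaces of `C_p(Z)` are separable, and `T × ω^ω` is a closed
subspace of `Z`, then only countably many points of `T` have a countable neighbourhood in `T`.
-/

set_option autoImplicit false
open TopologicalSpace Set

namespace Pool.Agent.CpPN

universe u v

/-- the points with a countable open neighbourhood -/
def LC (T : Type v) [TopologicalSpace T] : Set T :=
  {x | ∃ U : Set T, IsOpen U ∧ x ∈ U ∧ U.Countable}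

/-- prepend a number to a sequence -/
def pre (a : ℕ) (t : ℕ → ℕ) : ℕ → ℕ := fun i => Nat.casesOn i a t

@[simp] lemma pre_zero (a : ℕ) (t : ℕ → ℕ) : pre a t 0 = a := rfl
@[simp] lemma pre_succ (a : ℕ) (t : ℕ → ℕ) (i : ℕ) : pre a t (i + 1) = t i := rfl

variable {T : Type v} [TopologicalSpace T]

lemma clopen_nbhd [T35Space T] {x : T} {V : Set T} (hx : x ∈ LC T) (hV : IsOpen V) (hxV : x ∈ V) :
    ∃ G : Set T, IsClopen G ∧ x ∈ G ∧ G ⊆ V ∧ G.Countable := by
  obtain ⟨U, hU, hxU, hUc⟩ := hx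
  obtain ⟨φ, hφ, hφ1, hφ0, -⟩ := exists_bump x (hU.inter hV) ⟨hxU, hxV⟩
  have h1 : ((φ '' U)ᶜ ∩ Ioo (0 : ℝ) 1).Nonempty := by
    by_contra h
    rw [not_nonempty_iff_eq_empty] at h
    have h2 : Ioo (0 : ℝ) 1 ⊆ φ '' U := by
      intro t ht
      by_contra h3
      have : t ∈ (φ '' U)ᶜ ∩ Ioo (0 : ℝ) 1 := ⟨h3, ht⟩
      rw [h] at this
      exact this
    have h3 : (Ioo (0 : ℝ) 1).Countable := (hUc.image φ).mono h2
    exact absurd (Cardinal.Real.Ioo_countable_iff.1 h3) (not_le.2 one_pos)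
  obtain ⟨t, ht, ht0, ht1⟩ := h1
  have h4 : ∀ z, t ≤ φ z → z ∈ U ∧ z ∈ V := by
    intro z hz
    by_contra h
    rw [hφ0 z (fun h' => h ⟨h'.1, h'.2⟩)] at hz
    linarith
  have h5 : {z | t < φ z} = {z | t ≤ φ z} := by
    ext z
    constructor
    · intro h
      exact le_of_lt (show t < φ z from h)
    · intro h
      have h' : t ≠ φ z := fun h' => ht ⟨z, (h4 z h).1, h'.symm⟩
      exact lt_of_le_of_ne (show t ≤ φ z from h) h'
  refine ⟨{z | t < φ z}, ⟨?_, isOpen_lt continuous_const hφ⟩, ?_, ?_, ?_⟩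
  · rw [h5]; exact isClosed_le continuous_const hφ
  · show t < φ x
    rw [hφ1]; exact ht1
  · intro z hz
    exact (h4 z (le_of_lt hz)).2
  · exact hUc.mono fun z hz => (h4 z (le_of_lt hz)).1

open Classical in
/-- a `0,1`-valued indicator -/
noncomputable def ind (G : Set T) (x : T) : ℝ := if x ∈ G then 1 else 0

lemma ind_of_mem {G : Set T} {x : T} (h : x ∈ G) : ind G x = 1 := by
  simp [ind, h]

lemma ind_of_notMem {G : Set T} {x : T} (h : x ∉ G) : ind G x = 0 := by
  simp [ind, h]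

lemma ind_eq_iff {G : Set T} {x y : T} : ind G x = ind G y ↔ (x ∈ G ↔ y ∈ G) := by
  by_cases h1 : x ∈ G <;> by_cases h2 : y ∈ G <;> simp [ind, h1, h2]

/-- the code of the `k`-th digit of the `n`-th point -/
def code (n k : ℕ) : ℕ → ℕ := pre 2 (pre n (pre k 0))

open Classical in
/-- the locally constant function coding a countable clopen set `G = range u` -/
noncomputable def om (G : Set T) (C : ℕ → Set T) (u : ℕ → T) (p : T × (ℕ → ℕ)) : ℝ :=
  if p.2 0 = 0 then ind G p.1
  else if p.2 0 = 1 then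
    (if h : ∃ n : ℕ, p.1 ∈ G ∧ ∀ k < p.2 (n + 1), (p.1 ∈ C k ↔ u n ∈ C k) then
      (Nat.find h : ℝ) else 0)
  else if p.2 0 = 2 then ind (C (p.2 2)) (u (p.2 1))
  else 0

lemma continuous_om {G : Set T} (hG : IsClopen G) {C : ℕ → Set T} (hC : ∀ k, IsClopen (C k))
    {u : ℕ → T} (hu : G ⊆ range u) : Continuous (om G C u) := by
  classical
  have hev : ∀ i : ℕ, Continuous (fun p : T × (ℕ → ℕ) => p.2 i) := fun i =>
    (continuous_apply i).comp continuous_snd
  have hev' : ∀ i m : ℕ, IsOpen {p : T × (ℕ → ℕ) | p.2 i = m} := fun i m =>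
    (isOpen_discrete {m}).preimage (hev i)
  have hGo : ∀ A : Set T, IsClopen A → ∀ x : T, IsOpen {p : T × (ℕ → ℕ) | p.1 ∈ A ↔ x ∈ A} := by
    intro A hA x
    by_cases hx : x ∈ A
    · simp only [hx, iff_true]; exact hA.2.preimage continuous_fst
    · simp only [hx, iff_false]; exact hA.1.isOpen_compl.preimage continuous_fst
  refine IsLocallyConstant.continuous ((IsLocallyConstant.iff_exists_open _).2 ?_)
  rintro ⟨x, t⟩
  -- a number bounding everything relevant
  let h0 : ∃ m : ℕ, x ∈ G → ∃ n ≤ m, u n = x := by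
    by_cases hx : x ∈ G
    · obtain ⟨n, hn⟩ := hu hx
      exact ⟨n, fun _ => ⟨n, le_rfl, hn⟩⟩
    · exact ⟨0, fun h => absurd h hx⟩
  obtain ⟨m, hm⟩ := h0
  let K : ℕ := ∑ i ∈ Finset.range (m + 2), t i
  let W : Set (T × (ℕ → ℕ)) := {p | p.1 ∈ G ↔ x ∈ G} ∩
    ((⋂ i ∈ Finset.range (m + 3), {p | p.2 i = t i}) ∩
      ⋂ k ∈ Finset.range K, {p | p.1 ∈ C k ↔ x ∈ C k})
  have hW : IsOpen W := (hGo G hG x).inter ((isOpen_biInter_finset fun i _ => hev' i (t i)).inter
    (isOpen_biInter_finset fun k _ => hGo (C k) (hC k) x))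
  refine ⟨W, hW, ?_, ?_⟩
  · refine ⟨Iff.rfl, ?_, ?_⟩
    · simp only [mem_iInter]; intro i _; rfl
    · simp only [mem_iInter]; intro i _; exact Iff.rfl
  · rintro ⟨y, s⟩ ⟨h1, h2, h3⟩
    have h1' : y ∈ G ↔ x ∈ G := h1
    have h2' : ∀ i < m + 3, s i = t i := fun i hi => by
      have := mem_iInter₂.1 h2 i (Finset.mem_range.2 hi)
      exact this
    have h3' : ∀ k < K, (y ∈ C k ↔ x ∈ C k) := fun k hk => by
      have := mem_iInter₂.1 h3 k (Finset.mem_range.2 hk)
      exact this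
    have hK : ∀ i < m + 2, t i ≤ K := fun i hi =>
      Finset.single_le_sum (f := t) (fun _ _ => Nat.zero_le _) (Finset.mem_range.2 hi)
    have e0 : s 0 = t 0 := h2' 0 (by omega)
    have e1 : s 1 = t 1 := h2' 1 (by omega)
    have e2 : s 2 = t 2 := h2' 2 (by omega)
    show om G C u (y, s) = om G C u (x, t)
    unfold om
    simp only [e0, e1, e2]
    by_cases c0 : t 0 = 0
    · simp only [c0, if_true]
      exact ind_eq_iff.2 h1'
    by_cases c1 : t 0 = 1
    · simp only [c1, if_true, one_ne_zero, if_false]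
      by_cases hx : x ∈ G
      · obtain ⟨n, hnm, hn⟩ := hm hx
        have hy : y ∈ G := h1'.2 hx
        have key : ∀ j ≤ m, ((y ∈ G ∧ ∀ k < s (j + 1), (y ∈ C k ↔ u j ∈ C k)) ↔
            (x ∈ G ∧ ∀ k < t (j + 1), (x ∈ C k ↔ u j ∈ C k))) := by
          intro j hj
          simp only [hx, hy, true_and]
          rw [h2' (j + 1) (by omega)]
          refine forall₂_congr fun k hk => ?_
          rw [h3' k (lt_of_lt_of_le hk (hK (j + 1) (by omega)))]
        have ex : ∃ n : ℕ, x ∈ G ∧ ∀ k < t (n + 1), (x ∈ C k ↔ u n ∈ C k) :=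
          ⟨n, hx, fun k _ => by rw [hn]⟩
        have ey : ∃ n : ℕ, y ∈ G ∧ ∀ k < s (n + 1), (y ∈ C k ↔ u n ∈ C k) :=
          ⟨n, (key n hnm).2 ⟨hx, fun k _ => by rw [hn]⟩⟩
        rw [dif_pos ex, dif_pos ey]
        have hfx : Nat.find ex ≤ m := (Nat.find_le ⟨hx, fun k _ => by rw [hn]⟩ : Nat.find ex ≤ n).trans hnm
        have hfy : Nat.find ey ≤ m :=
          (Nat.find_le ((key n hnm).2 ⟨hx, fun k _ => by rw [hn]⟩) : Nat.find ey ≤ n).trans hnm
        have : Nat.find ey = Nat.find ex := by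
          apply le_antisymm
          · exact Nat.find_le ((key _ hfx).2 (Nat.find_spec ex))
          · exact Nat.find_le ((key _ hfy).1 (Nat.find_spec ey))
        rw [this]
      · have hy : y ∉ G := fun h => hx (h1'.1 h)
        rw [dif_neg (fun ⟨_, h, _⟩ => hy h), dif_neg (fun ⟨_, h, _⟩ => hx h)]
    · simp only [c0, c1, if_false]

variable {Z : Type u} [TopologicalSpace Z]

lemma isClosed_M (a b : Z) (g : ℕ → Z) (r : ℕ → ℕ → Prop) (c : ℕ → ℕ → ℝ) (d : ℕ → ℕ → Z) :
    IsClosed {w : Cp Z | w.1 a = 0 ∨ ∃ n : ℕ, (n : ℝ) ≤ w.1 b ∧ ∀ k, r n k → c n k = w.1 (d n k)} := by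
  have h0 : {w : Cp Z | w.1 a = 0 ∨ ∃ n : ℕ, (n : ℝ) ≤ w.1 b ∧ ∀ k, r n k → c n k = w.1 (d n k)} =
      {w : Cp Z | w.1 a = 0} ∪
        ⋃ n : ℕ, {w : Cp Z | (n : ℝ) ≤ w.1 b ∧ ∀ k, r n k → c n k = w.1 (d n k)} := by
    ext w
    simp only [mem_ofPred_eq, mem_union, mem_iUnion]
  rw [h0]
  refine (isClosed_eq (continuous_eval a) continuous_const).union ?_
  refine LocallyFinite.isClosed_iUnion ?_ ?_
  · intro w
    refine ⟨{w' | w'.1 b < w.1 b + 1}, (isOpen_lt (continuous_eval b) continuous_const).mem_nhds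
      (show w.1 b < w.1 b + 1 by linarith), ?_⟩
    refine (Set.finite_lt_nat (⌈w.1 b + 1⌉₊)).subset ?_
    rintro n ⟨w', hw', hw⟩
    have h1 : (n : ℝ) ≤ w'.1 b := hw'.1
    have h2 : w'.1 b < w.1 b + 1 := hw
    exact Nat.lt_ceil.2 (lt_of_le_of_lt h1 h2)
  · intro n
    have h1 : {w : Cp Z | (n : ℝ) ≤ w.1 b ∧ ∀ k, r n k → c n k = w.1 (d n k)} =
        {w : Cp Z | (n : ℝ) ≤ w.1 b} ∩ ⋂ k, ⋂ (_ : r n k), {w : Cp Z | c n k = w.1 (d n k)} := by
      ext w
      simp only [mem_ofPred_eq, mem_inter_iff, mem_iInter]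
    rw [h1]
    exact (isClosed_le continuous_const (continuous_eval b)).inter
      (isClosed_iInter fun k => isClosed_iInter fun _ =>
        isClosed_eq continuous_const (continuous_eval _))

/-- The core statement. -/
theorem core [NormalSpace Z] [T35Space T] (e : T × (ℕ → ℕ) → Z) (he : Topology.IsClosedEmbedding e)
    (hCS : CS (Cp Z)) : (LC T).Countable := by
  classical
  rcases (LC T).eq_empty_or_nonempty with hne | ⟨x0, -⟩
  · rw [hne]; exact countable_empty
  have hext : ∀ f : T × (ℕ → ℕ) → ℝ, Continuous f → ∃ w : Cp Z, ∀ p, w.1 (e p) = f p := by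
    intro f hf
    obtain ⟨g, -, hg⟩ := ContinuousMap.exists_extension_forall_mem_of_isClosedEmbedding
      (⟨f, hf⟩ : C(T × (ℕ → ℕ), ℝ)) (t := univ) (fun _ => mem_univ _) univ_nonempty he
    exact ⟨⟨g, g.continuous⟩, fun p => congrFun hg p⟩
  -- separating clopen sets
  let L : Set (Cp Z) := {w | ∀ x : T, w.1 (e (x, 0)) = 0 ∨ w.1 (e (x, 0)) = 1}
  have hL : IsClosed L := by
    have : L = ⋂ x : T, ({w | w.1 (e (x, 0)) = 0} ∪ {w | w.1 (e (x, 0)) = 1}) := by
      ext w
      simp only [L, mem_ofPred_eq, mem_iInter, mem_union]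
    rw [this]
    exact isClosed_iInter fun x => (isClosed_eq (continuous_eval _) continuous_const).union
      (isClosed_eq (continuous_eval _) continuous_const)
  obtain ⟨D, hDL, hDc, hD⟩ := hCS L hL
  have hL0 : (⟨fun _ => 0, continuous_const⟩ : Cp Z) ∈ L := fun x => Or.inl rfl
  have hDne : D.Nonempty := by
    by_contra h
    rw [not_nonempty_iff_eq_empty] at h
    have := hD hL0
    rw [h, closure_empty] at this
    exact this
  obtain ⟨v, hv⟩ := hDc.exists_eq_range hDne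
  have hvL : ∀ k, v k ∈ L := fun k => hDL (by rw [hv]; exact mem_range_self k)
  let C : ℕ → Set T := fun k => {x | (v k).1 (e (x, 0)) = 1}
  have hce : Continuous (fun x : T => e (x, 0)) := he.continuous.comp (by fun_prop)
  have hC : ∀ k, IsClopen (C k) := by
    intro k
    refine ⟨isClosed_eq ((v k).2.comp hce) continuous_const, ?_⟩
    have : C k = {x | (v k).1 (e (x, 0)) ≠ 0} := by
      ext x
      simp only [C, mem_ofPred_eq]
      rcases hvL k x with h | h
      · simp [h]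
      · simp [h]
    rw [this]
    exact isOpen_ne_fun ((v k).2.comp hce) continuous_const
  have hsep : ∀ x ∈ LC T, ∀ y : T, (∀ k, x ∈ C k ↔ y ∈ C k) → x = y := by
    intro x hx y hxy
    by_contra hne
    obtain ⟨G, hG, hxG, hGy, -⟩ := clopen_nbhd hx (isClosed_singleton (x := y)).isOpen_compl
      (by simpa using hne)
    have hyG : y ∉ G := fun h => hGy h rfl
    obtain ⟨w, hw⟩ := hext (fun p => ind G p.1) (by
      have h1 : IsLocallyConstant (ind G) := by
        refine (IsLocallyConstant.iff_exists_open _).2 fun z => ?_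
        by_cases hz : z ∈ G
        · exact ⟨G, hG.2, hz, fun z' hz' => by rw [ind_of_mem hz, ind_of_mem hz']⟩
        · exact ⟨Gᶜ, hG.1.isOpen_compl, hz, fun z' hz' => by
            rw [ind_of_notMem hz, ind_of_notMem hz']⟩
      exact h1.continuous.comp continuous_fst)
    have hwL : w ∈ L := by
      intro z
      rw [hw]
      by_cases hz : z ∈ G
      · right; exact ind_of_mem hz
      · left; exact ind_of_notMem hz
    have h1 := hD hwL
    rw [mem_closure_iff] at h1
    obtain ⟨w', ⟨hw'1, hw'2⟩, hw'D⟩ := h1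
      ({w' | 1 / 2 < w'.1 (e (x, 0))} ∩ {w' | w'.1 (e (y, 0)) < 1 / 2})
      ((isOpen_lt continuous_const (continuous_eval _)).inter
        (isOpen_lt (continuous_eval _) continuous_const))
      ⟨by
        show 1 / 2 < w.1 (e (x, 0))
        rw [hw, ind_of_mem hxG]; norm_num, by
        show w.1 (e (y, 0)) < 1 / 2
        rw [hw, ind_of_notMem hyG]; norm_num⟩
    rw [hv] at hw'D
    obtain ⟨k, rfl⟩ := hw'D
    have h2 : x ∈ C k := by
      rcases hvL k x with h | h
      · have h3 : 1 / 2 < (v k).1 (e (x, 0)) := hw'1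
        rw [h] at h3; norm_num at h3
      · exact h
    have h4 : (v k).1 (e (y, 0)) = 1 := (hxy k).1 h2
    have h5 : (v k).1 (e (y, 0)) < 1 / 2 := hw'2
    rw [h4] at h5; norm_num at h5
  -- the closed set
  let M : Set (Cp Z) := {w | ∀ x ∈ LC T, ∀ t : ℕ → ℕ, w.1 (e (x, 0)) = 0 ∨
    ∃ n : ℕ, (n : ℝ) ≤ w.1 (e (x, pre 1 t)) ∧
      ∀ k, k < t n → ind (C k) x = w.1 (e (x0, code n k))}
  have hM : IsClosed M := by
    have : M = ⋂ x ∈ LC T, ⋂ t : ℕ → ℕ, {w : Cp Z | w.1 (e (x, 0)) = 0 ∨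
        ∃ n : ℕ, (n : ℝ) ≤ w.1 (e (x, pre 1 t)) ∧
          ∀ k, k < t n → ind (C k) x = w.1 (e (x0, code n k))} := by
      ext w
      simp only [M, mem_ofPred_eq, mem_iInter]
    rw [this]
    refine isClosed_iInter fun x => isClosed_iInter fun _ => isClosed_iInter fun t => ?_
    exact isClosed_M (e (x, 0)) (e (x, pre 1 t)) (fun _ => e (x0, 0)) (fun n k => k < t n)
      (fun _ k => ind (C k) x) (fun n k => e (x0, code n k))
  have hcount : ∀ w ∈ M, {x | x ∈ LC T ∧ w.1 (e (x, 0)) ≠ 0}.Countable := by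
    intro w hw
    have h1 : {x | x ∈ LC T ∧ w.1 (e (x, 0)) ≠ 0} ⊆
        ⋃ n : ℕ, {x | x ∈ LC T ∧ ∀ k, ind (C k) x = w.1 (e (x0, code n k))} := by
      rintro x ⟨hx, hx0⟩
      by_contra hcon
      simp only [mem_iUnion, mem_ofPred_eq, not_exists, not_and, not_forall] at hcon
      choose k hk using fun n => hcon n hx
      rcases hw x hx (fun n => k n + 1) with h | ⟨n, -, hn⟩
      · exact hx0 h
      · exact hk n (hn (k n) (Nat.lt_succ_self _))
    refine (countable_iUnion fun n => Set.Subsingleton.countable ?_).mono h1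
    rintro x ⟨hx, hx'⟩ y ⟨hy, hy'⟩
    refine hsep x hx y fun k => ?_
    rw [← ind_eq_iff, hx' k, hy' k]
  obtain ⟨D', hD'M, hD'c, hD'⟩ := hCS M hM
  have hcov : LC T ⊆ ⋃ w ∈ D', {x | x ∈ LC T ∧ w.1 (e (x, 0)) ≠ 0} := by
    intro x1 hx1
    obtain ⟨G, hG, hxG, -, hGc⟩ := clopen_nbhd hx1 isOpen_univ (mem_univ x1)
    obtain ⟨u, hu⟩ := hGc.exists_eq_range ⟨x1, hxG⟩
    obtain ⟨w, hw⟩ := hext (om G C u) (continuous_om hG hC hu.subset)
    have hw0 : ∀ x : T, w.1 (e (x, 0)) = ind G x := by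
      intro x
      rw [hw]
      simp [om]
    have hcode : ∀ n k, w.1 (e (x0, code n k)) = ind (C k) (u n) := by
      intro n k
      rw [hw]
      have e0 : (x0, code n k).2 0 = 2 := rfl
      have e1 : (x0, code n k).2 1 = n := rfl
      have e2 : (x0, code n k).2 2 = k := rfl
      unfold om
      rw [e0, e1, e2, if_neg (by norm_num), if_neg (by norm_num), if_pos rfl]
    have hwM : w ∈ M := by
      intro x hx t
      by_cases hxG' : x ∈ G
      · right
        have hxu : x ∈ range u := by rw [← hu]; exact hxG'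
        obtain ⟨m, hm⟩ := hxu
        have ex : ∃ n : ℕ, (x, pre 1 t).1 ∈ G ∧ ∀ k < (x, pre 1 t).2 (n + 1),
            ((x, pre 1 t).1 ∈ C k ↔ u n ∈ C k) := ⟨m, hxG', fun k _ => by rw [hm]⟩
        refine ⟨Nat.find ex, ?_, ?_⟩
        · rw [hw]
          have h1 : om G C u (x, pre 1 t) = (Nat.find ex : ℝ) := by
            unfold om
            rw [if_neg (by simp), if_pos (by simp), dif_pos ex]
          rw [h1]
        · intro k hk
          rw [hcode]
          exact ind_eq_iff.2 ((Nat.find_spec ex).2 k hk)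
      · left
        rw [hw0, ind_of_notMem hxG']
    have h1 := hD' hwM
    rw [mem_closure_iff] at h1
    obtain ⟨w', hw', hw'D⟩ := h1 {w' | 1 / 2 < w'.1 (e (x1, 0))}
      (isOpen_lt continuous_const (continuous_eval _)) (by
        show 1 / 2 < w.1 (e (x1, 0))
        rw [hw0, ind_of_mem hxG]; norm_num)
    have h2 : 1 / 2 < w'.1 (e (x1, 0)) := hw'
    refine mem_iUnion₂.2 ⟨w', hw'D, hx1, ?_⟩
    intro h3
    rw [h3] at h2; norm_num at h2
  exact (hD'c.biUnion fun w hw => hcount w (hD'M hw)).mono hcov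

end Pool.Agent.CpPN
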