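import Pool.Agent.CpPN.Duality

/-!
# S-spaces in spaces of countable spread
-/

set_option autoImplicit false
open TopologicalSpace Set

namespace Pool.Agent.CpPN

universe u

/-- A space of countable spread which is not hereditarily Lindelof contains a hereditarily
separable subspace that is not Lindelof. -/
theorem exists_sspace {T : Type u} [TopologicalSpace T]
    (hs : ∀ D : Set T, DiscreteTopology D → D.Countable) (S : Set T) (hS : ¬ IsLindelof S) :
    ∃ Y : Set T, (∀ S' ⊆ Y, SeparableSpace S') ∧ ¬ IsLindelof Y := by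
  classical
  -- an open cover without countable subcover
  have h1 : ∃ (ι : Type u) (U : ι → Set T), (∀ i, IsOpen (U i)) ∧ S ⊆ ⋃ i, U i ∧
      ∀ r : Set ι, r.Countable → ¬ S ⊆ ⋃ i ∈ r, U i := by
    by_contra h
    push Not at h
    exact hS (isLindelof_of_countable_subcover fun {ι} U hU hSU => h ι U hU hSU)
  obtain ⟨ι, U, hU, hSU, hno⟩ := h1
  obtain ⟨hlin, hwf⟩ := exists_wellFoundedLT ι
  let I1 : Set ι := {t | ∃ y ∈ S, y ∈ U t ∧ ∀ r < t, y ∉ U r}
  have hI1 : ¬ I1.Countable := by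
    intro hc
    refine hno I1 hc fun s hs => ?_
    have hne : {t : ι | s ∈ U t}.Nonempty := mem_iUnion.1 (hSU hs)
    let t := hwf.wf.min _ hne
    have ht : s ∈ U t := hwf.wf.min_mem _ hne
    have hlt : ∀ r < t, s ∉ U r := fun r hr hsr => hwf.wf.not_lt_min _ (x := r) hsr hr
    exact mem_iUnion₂.2 ⟨t, ⟨s, hs, ht, hlt⟩, ht⟩
  have h2 : ∃ I2 : Set ι, I2 ⊆ I1 ∧ ¬ I2.Countable ∧ ∀ t ∈ I2, (I2 ∩ Iio t).Countable := by
    by_cases h : ∃ ξ, ¬ (I1 ∩ Iio ξ).Countable
    · have hne : {ξ : ι | ¬ (I1 ∩ Iio ξ).Countable}.Nonempty := h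
      let ξ := hwf.wf.min _ hne
      have hξ : ¬ (I1 ∩ Iio ξ).Countable := hwf.wf.min_mem _ hne
      refine ⟨I1 ∩ Iio ξ, inter_subset_left, hξ, fun t ht => ?_⟩
      by_contra h3
      refine hwf.wf.not_lt_min _ (x := t) (show ¬ (I1 ∩ Iio t).Countable from ?_) ht.2
      intro h4
      refine h3 (h4.mono ?_)
      intro x hx
      exact ⟨hx.1.1, hx.2⟩
    · push Not at h
      exact ⟨I1, Subset.rfl, hI1, fun t _ => h t⟩
  obtain ⟨I2, hI21, hI2, hI2c⟩ := h2
  have hle : ∀ t ∈ I2, (I2 ∩ Iic t).Countable := by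
    intro t ht
    refine ((hI2c t ht).insert t).mono fun x hx => ?_
    rcases (show x ≤ t from hx.2).lt_or_eq with h | h
    · exact mem_insert_of_mem _ ⟨hx.1, h⟩
    · exact h ▸ mem_insert _ _
  have hbd : ∀ C : Set ι, C ⊆ I2 → C.Countable → ∃ t ∈ I2, ∀ c ∈ C, c < t := by
    intro C hC hCc
    by_contra h
    push Not at h
    refine hI2 ((hCc.biUnion fun c hc => hle c (hC hc)).mono fun t ht => ?_)
    obtain ⟨c, hc, htc⟩ := h t ht
    exact mem_iUnion₂.2 ⟨c, hc, ht, htc⟩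
  have h3 : ∀ t : ι, ∃ y : T, t ∈ I2 → (y ∈ U t ∧ ∀ r < t, y ∉ U r) := by
    intro t
    by_cases ht : t ∈ I2
    · obtain ⟨y, _, h4, h5⟩ := hI21 ht
      exact ⟨y, fun _ => ⟨h4, h5⟩⟩
    · by_cases hT : Nonempty T
      · exact ⟨hT.some, fun h => absurd h ht⟩
      · exfalso
        obtain ⟨t', ht', _⟩ := hbd ∅ (empty_subset _) countable_empty
        obtain ⟨y, _⟩ := hI21 ht'
        exact hT ⟨y⟩
  choose y hy using h3
  have hyinj : InjOn y I2 := by
    intro t ht r hr htr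
    rcases lt_trichotomy t r with h | h | h
    · exact absurd (htr ▸ (hy t ht).1) ((hy r hr).2 t h)
    · exact h
    · exact absurd (htr.symm ▸ (hy r hr).1) ((hy t ht).2 r h)
  refine ⟨y '' I2, fun S' hS' => ?_, fun hL => ?_⟩
  · -- hereditarily separable
    let J : Set ι := {t | t ∈ I2 ∧ y t ∈ S'}
    have hJS' : S' = y '' J := by
      ext z
      constructor
      · intro hz
        obtain ⟨t, ht, rfl⟩ := hS' hz
        exact ⟨t, ⟨ht, hz⟩, rfl⟩
      · rintro ⟨t, ht, rfl⟩; exact ht.2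
    let P : ι → Prop := hwf.wf.fix
      (fun t ih => t ∈ J ∧ y t ∉ closure (y '' {r | ∃ h : r < t, ih r h}))
    have hP : ∀ t, P t ↔ (t ∈ J ∧ y t ∉ closure (y '' {r | r < t ∧ P r})) := by
      intro t
      have := hwf.wf.fix_eq (C := fun _ => Prop)
        (fun t ih => t ∈ J ∧ y t ∉ closure (y '' {r | ∃ h : r < t, ih r h})) t
      have h5 : P t = (t ∈ J ∧ y t ∉ closure (y '' {r | ∃ _ : r < t, P r})) := this
      rw [h5]
      simp only [exists_prop]
    have hdisc : DiscreteTopology (y '' {t | P t}) := by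
      rw [discreteTopology_iff_isOpen_singleton]
      rintro ⟨z, t, ht, rfl⟩
      have ht' := (hP t).1 ht
      rw [isOpen_induced_iff]
      refine ⟨U t ∩ (closure (y '' {r | r < t ∧ P r}))ᶜ, (hU t).inter isClosed_closure.isOpen_compl, ?_⟩
      ext ⟨z, r, hr, rfl⟩
      have hr' := (hP r).1 hr
      simp only [mem_preimage, mem_singleton_iff, Subtype.mk.injEq]
      constructor
      · rintro ⟨h6, h7⟩
        rcases lt_trichotomy r t with h | h | h
        · have h8 : y r ∈ y '' {r | r < t ∧ P r} := ⟨r, ⟨h, hr⟩, rfl⟩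
          exact absurd (subset_closure h8) h7
        · rw [h]
        · exact absurd h6 ((hy r hr'.1.1).2 t h)
      · intro h6
        rw [h6]
        exact ⟨(hy t ht'.1.1).1, ht'.2⟩
    have hDc := hs _ hdisc
    have hPI : {t | P t} ⊆ I2 := fun t ht => ((hP t).1 ht).1.1
    have hPc : {t | P t}.Countable := countable_of_injective_of_countable_image (hyinj.mono hPI) hDc
    obtain ⟨t', ht', hlt⟩ := hbd _ hPI hPc
    rw [separable_iff]
    refine ⟨y '' (J ∩ Iic t'), ?_, ?_, ?_⟩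
    · rintro _ ⟨t, ht, rfl⟩; exact ht.1.2
    · refine Countable.image ((hle t' ht').mono ?_) _
      intro t ht
      exact ⟨ht.1.1, ht.2⟩
    · rw [hJS']
      rintro _ ⟨t, ht, rfl⟩
      rcases le_or_gt t t' with h | h
      · exact subset_closure ⟨t, ⟨ht, h⟩, rfl⟩
      · have h7 : ¬ P t := fun h8 => lt_asymm h (hlt t h8)
        have h8 : y t ∈ closure (y '' {r | r < t ∧ P r}) := by
          by_contra h9
          exact h7 ((hP t).2 ⟨ht, h9⟩)
        refine closure_mono ?_ h8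
        rintro _ ⟨r, hr, rfl⟩
        exact ⟨r, ⟨((hP r).1 hr.2).1, (hlt r hr.2).le⟩, rfl⟩
  · -- not Lindelof
    obtain ⟨r, hrc, hr⟩ := hL.elim_countable_subcover (fun t : I2 => U t) (fun t => hU t)
      (by rintro _ ⟨t, ht, rfl⟩; exact mem_iUnion.2 ⟨⟨t, ht⟩, (hy t ht).1⟩)
    obtain ⟨t', ht', hlt⟩ := hbd ((↑) '' r) (by rintro _ ⟨t, _, rfl⟩; exact t.2) (hrc.image _)
    obtain ⟨t, htr, h4⟩ := mem_iUnion₂.1 (hr ⟨t', ht', rfl⟩)
    exact (hy t' ht').2 t (hlt _ ⟨t, htr, rfl⟩) h4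

end Pool.Agent.CpPN
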